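import Pool.Agent.H448R2.GC.M1

set_option autoImplicit false

/-!
The approximate functional equation with an arbitrarily short smooth cutoff (the proofs are those of
`Pool.Agent.TH806`, with a parameter `e` in place of `1 / 200`).
-/

namespace Pool.Agent.T6.H57.SM

open Complex MeasureTheory Filter Topology
open Pool.Agent.H448R2.GC
open Pool.Agent.H448R2.GC.M1

/-- first half: shift to the far left and truncate the dual Dirichlet series -/
theorem afe_left {e : ℝ} (he : 0 < e) (he1 : e ≤ 1 / 8) (K : ℝ) : ∃ x₁ : ℝ, 1 ≤ x₁ ∧ ∃ k₀ : ℕ, ∀ k : ℕ, k₀ ≤ k → ∃ T₀ : ℝ, ∀ T : ℝ,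
    T₀ ≤ T → ∀ s : ℂ, 1 / 4 ≤ s.re → s.re ≤ 1 / 2 → T / 8 ≤ s.im → s.im ≤ 8 * T →
    ‖riemannZeta s - cs k (e * Real.log T / k) (1 / 2 * Real.log T) s +
      (1 / (2 * Real.pi)) * ∫ y : ℝ,
      XX (1 - s - (((-x₁ : ℝ) : ℂ) + (y : ℂ) * I)) *
      cs k (e * Real.log T / k) ((1 / 2 + e) * Real.log T) (1 - s - (((-x₁ : ℝ) : ℂ) + (y : ℂ) * I)) *
      ker k (e * Real.log T / k) (1 / 2 * Real.log T) (-x₁) y‖ ≤ T ^ (-K) := by
  have hK0 : 0 ≤ |K| := abs_nonneg K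
  obtain ⟨x₁, hx₁def⟩ : ∃ x₁ : ℝ, x₁ = (|K| + 3) / e := ⟨_, rfl⟩
  have hex : e * x₁ = |K| + 3 := by rw [hx₁def]; field_simp
  have hx₁ : 1 ≤ x₁ := by rw [hx₁def, le_div_iff₀ he]; linarith
  obtain ⟨k₁, hid⟩ := S4.left_identity x₁ hx₁
  obtain ⟨CX, hCX, hX⟩ := Pool.Agent.H448R2.GC.XX_upper (3 / 4 + x₁)
  refine ⟨x₁, hx₁, k₁ + ⌈x₁⌉₊ + 4, fun k hk => ?_⟩
  obtain ⟨Cz, hCz⟩ : ∃ Cz : ℝ, Cz = ∑' m : ℕ, (m : ℝ) ^ (-(3 / 2) : ℝ) := ⟨_, rfl⟩
  have hCz0 : 0 ≤ Cz := by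
    rw [hCz]
    exact tsum_nonneg (fun m => by positivity)
  refine ⟨max (Real.exp (k / e)) (max (CX * 9 ^ (x₁ + 1) * 3 ^ k * Cz + 24 ^ k) 8),
    fun T hT s hs1 hs2 hs3 hs4 => ?_⟩
  have hT1 : Real.exp (k / e) ≤ T := (le_max_left _ _).trans hT
  have hT2 : CX * 9 ^ (x₁ + 1) * 3 ^ k * Cz + 24 ^ k ≤ T :=
    ((le_max_left _ _).trans (le_max_right _ _)).trans hT
  have hT3 : 8 ≤ T := ((le_max_right _ _).trans (le_max_right _ _)).trans hT
  have hT0 : 0 < T := by linarith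
  have hkx : x₁ + 1 + 2 ≤ k := by
    have h1 := Nat.le_ceil x₁
    have h2 : ((⌈x₁⌉₊ + 4 : ℕ) : ℝ) ≤ k := by exact_mod_cast (by omega)
    push_cast at h2
    linarith
  have hkpos : (0 : ℝ) < k := by linarith
  obtain ⟨L, hL⟩ : ∃ L : ℝ, L = Real.log T := ⟨_, rfl⟩
  have hLk : (k : ℝ) / e ≤ L := by
    rw [hL, Real.le_log_iff_exp_le hT0]
    exact hT1
  have hLnn : 0 ≤ L := le_trans (by positivity) hLk
  rw [← hL]
  obtain ⟨c, hcdef⟩ : ∃ c : ℝ, c = e * L / k := ⟨_, rfl⟩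
  have hc1 : 1 ≤ c := by
    rw [hcdef, le_div_iff₀ hkpos]
    rw [div_le_iff₀ he] at hLk
    linarith
  have hc : 0 < c := by linarith
  have hkc : k * c = e * L := by
    rw [hcdef]
    field_simp
  rw [← hcdef]
  have hexpL : Real.exp L = T := by rw [hL, Real.exp_log hT0]
  obtain ⟨D, hD⟩ : ∃ D : ℝ, D = 1 / 2 * L := ⟨_, rfl⟩
  obtain ⟨D', hD'⟩ : ∃ D' : ℝ, D' = (1 / 2 + e) * L := ⟨_, rfl⟩
  rw [← hD, ← hD']
  have hid' := hid k (by omega) c D hc s hs1 hs2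
  -- the point u
  obtain ⟨u, hu⟩ : ∃ u : ℝ → ℂ, u = fun y : ℝ => 1 - s - (((-x₁ : ℝ) : ℂ) + (y : ℂ) * I) := ⟨_, rfl⟩
  have huy : ∀ y : ℝ, 1 - s - (((-x₁ : ℝ) : ℂ) + (y : ℂ) * I) = u y := by
    intro y
    rw [hu]
  have hure : ∀ y : ℝ, (u y).re = 1 - s.re + x₁ := by
    intro y
    rw [hu]
    simp
  have huim : ∀ y : ℝ, (u y).im = -(s.im + y) := by
    intro y
    rw [hu]
    simp
    ring
  have hucont : Continuous u := by
    rw [hu]
    fun_prop
  have hu32 : ∀ y : ℝ, 3 / 2 ≤ (u y).re := by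
    intro y
    rw [hure]
    linarith
  have hune : ∀ y : ℝ, u y ≠ 1 := by
    intro y h
    have := hu32 y
    rw [h] at this
    norm_num at this
  have hzeta : ∀ y : ℝ, riemannZeta (s + (((-x₁ : ℝ) : ℂ) + (y : ℂ) * I)) =
      XX (u y) * riemannZeta (u y) := by
    intro y
    rw [← Pool.Agent.H448R2.GC.zeta_fe (u y) (by linarith [hu32 y]) (hune y)]
    congr 1
    rw [← huy]
    ring
  have hcontX : Continuous (fun y : ℝ => XX (u y)) := by
    rw [continuous_iff_continuousAt]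
    intro y
    exact ContinuousAt.comp (g := XX) (S4.XX_diff (u y) (by linarith [hu32 y])).continuousAt
      hucont.continuousAt
  have hcontZ : Continuous (fun y : ℝ => riemannZeta (u y)) := by
    rw [continuous_iff_continuousAt]
    intro y
    exact ContinuousAt.comp (g := riemannZeta) (differentiableAt_riemannZeta (hune y)).continuousAt
      hucont.continuousAt
  have hcontC : Continuous (fun y : ℝ => cs k c D' (u y)) :=
    (S4.cs_diff k c D').continuous.comp hucont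
  have hcontK : Continuous (ker k c D (-x₁)) := Pool.Agent.H448R2.GC.ker_cont k c D (-x₁) (by linarith)
  -- the basic bound
  obtain ⟨M, hM⟩ : ∃ M : ℝ, M = CX * (9 * T) ^ (1 / 2 - s.re + x₁) * (Real.exp (-(D * x₁)) * 3 ^ k) :=
    ⟨_, rfl⟩
  have hM0 : 0 ≤ M := by rw [hM]; positivity
  have hbase : ∀ y : ℝ, ‖XX (u y)‖ * ‖ker k c D (-x₁) y‖ ≤ M * (1 + y ^ 2)⁻¹ := by
    intro y
    have b1 : ‖XX (u y)‖ ≤ CX * (9 * T) ^ (1 / 2 - s.re + x₁) * (1 + |y|) ^ (x₁ + 1) := by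
      refine (hX _ (by linarith [hu32 y]) (by rw [hure]; linarith)).trans ?_
      rw [hure, huim, abs_neg]
      have e0 : 1 - s.re + x₁ - 1 / 2 = 1 / 2 - s.re + x₁ := by ring
      rw [e0]
      have e1 : 1 + |s.im + y| ≤ (9 * T) * (1 + |y|) := by
        refine (S4.one_add_abs_le _ _).trans ?_
        apply mul_le_mul_of_nonneg_right _ (by positivity)
        rw [abs_of_nonneg (by linarith)]
        linarith
      have e2 : (1 + |s.im + y|) ^ (1 / 2 - s.re + x₁) ≤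
          ((9 * T) * (1 + |y|)) ^ (1 / 2 - s.re + x₁) :=
        Real.rpow_le_rpow (by positivity) e1 (by linarith)
      rw [Real.mul_rpow (by positivity) (by positivity)] at e2
      have e3 : (1 + |y|) ^ (1 / 2 - s.re + x₁) ≤ (1 + |y|) ^ (x₁ + 1) :=
        Real.rpow_le_rpow_of_exponent_le (by linarith [abs_nonneg y]) (by linarith)
      calc CX * (1 + |s.im + y|) ^ (1 / 2 - s.re + x₁)
          ≤ CX * ((9 * T) ^ (1 / 2 - s.re + x₁) * (1 + |y|) ^ (x₁ + 1)) := by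
            apply mul_le_mul_of_nonneg_left _ hCX.le
            exact e2.trans (mul_le_mul_of_nonneg_left e3 (by positivity))
        _ = _ := by ring
    have b2 : ‖ker k c D (-x₁) y‖ ≤ Real.exp (-(D * x₁)) * 3 ^ k * ((1 + |y|) ^ k)⁻¹ := by
      refine (Pool.Agent.H448R2.GC.ker_bound k c D (-x₁) y hc).trans ?_
      rw [max_eq_right (by linarith), mul_zero, add_zero]
      have h1 : x₁ ≤ ‖(((-x₁ : ℝ) : ℂ)) + (y : ℂ) * I‖ := by
        have := Complex.abs_re_le_norm ((((-x₁ : ℝ) : ℂ)) + (y : ℂ) * I)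
        simp at this
        rw [abs_of_nonneg (by linarith)] at this
        simpa using this
      have h2 : |y| ≤ ‖(((-x₁ : ℝ) : ℂ)) + (y : ℂ) * I‖ := by
        have := Complex.abs_im_le_norm ((((-x₁ : ℝ) : ℂ)) + (y : ℂ) * I)
        simpa using this
      have h3 : (3 / (1 + c * ‖(((-x₁ : ℝ) : ℂ)) + (y : ℂ) * I‖)) ^ k ≤ 3 ^ k * ((1 + |y|) ^ k)⁻¹ := by
        rw [← inv_pow, ← mul_pow, ← div_eq_mul_inv]
        apply pow_le_pow_left₀ (by positivity)
        apply div_le_div_of_nonneg_left (by norm_num) (by positivity)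
        have : |y| ≤ c * ‖(((-x₁ : ℝ) : ℂ)) + (y : ℂ) * I‖ := by nlinarith [abs_nonneg y]
        linarith
      calc Real.exp (D * -x₁) * (3 / (1 + c * ‖(((-x₁ : ℝ) : ℂ)) + (y : ℂ) * I‖)) ^ k /
            ‖(((-x₁ : ℝ) : ℂ)) + (y : ℂ) * I‖
          ≤ Real.exp (D * -x₁) * (3 / (1 + c * ‖(((-x₁ : ℝ) : ℂ)) + (y : ℂ) * I‖)) ^ k / 1 := by
            apply div_le_div_of_nonneg_left (by positivity) one_pos (by linarith)
        _ ≤ Real.exp (D * -x₁) * (3 ^ k * ((1 + |y|) ^ k)⁻¹) := by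
            rw [div_one]
            exact mul_le_mul_of_nonneg_left h3 (Real.exp_pos _).le
        _ = _ := by
            rw [mul_neg]
            ring
    have b3 := S4.decay k (x₁ + 1) |y| (abs_nonneg y) hkx
    rw [sq_abs] at b3
    calc ‖XX (u y)‖ * ‖ker k c D (-x₁) y‖
        ≤ (CX * (9 * T) ^ (1 / 2 - s.re + x₁) * (1 + |y|) ^ (x₁ + 1)) *
          (Real.exp (-(D * x₁)) * 3 ^ k * ((1 + |y|) ^ k)⁻¹) := by gcongr
      _ = M * ((1 + |y|) ^ (x₁ + 1) * ((1 + |y|) ^ k)⁻¹) := by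
          rw [hM]
          ring
      _ ≤ _ := mul_le_mul_of_nonneg_left b3 hM0
  have hint : ∀ W : ℝ, Integrable (fun y : ℝ => M * W * (1 + y ^ 2)⁻¹) := by
    intro W
    exact integrable_inv_one_add_sq.const_mul _
  have hbd : ∀ (w : ℂ) (W y : ℝ), ‖w‖ ≤ W → ‖XX (u y) * w * ker k c D (-x₁) y‖ ≤
      M * W * (1 + y ^ 2)⁻¹ := by
    intro w W y hw
    rw [norm_mul, norm_mul]
    have h0 : 0 ≤ W := (norm_nonneg w).trans hw
    calc ‖XX (u y)‖ * ‖w‖ * ‖ker k c D (-x₁) y‖ = (‖XX (u y)‖ * ‖ker k c D (-x₁) y‖) * ‖w‖ := by ring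
      _ ≤ (M * (1 + y ^ 2)⁻¹) * W := by
          apply mul_le_mul (hbase y) hw (norm_nonneg w) (by positivity)
      _ = _ := by ring
  -- error term
  have hE : ∀ y : ℝ, ‖riemannZeta (u y) - cs k c D' (u y)‖ ≤
      Real.exp (-(D' * (1 - s.re + x₁ - 3 / 2))) * Cz := by
    intro y
    have := S4.zeta_cs k c D' hc (u y) (hu32 y)
    rw [hure, ← hCz] at this
    exact this
  have hgint : Integrable (fun y : ℝ => XX (u y) * cs k c D' (u y) * ker k c D (-x₁) y) := by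
    refine (hint (⌊Real.exp (D' + k * c)⌋₊ : ℝ)).mono' ?_ ?_
    · exact ((hcontX.mul hcontC).mul hcontK).aestronglyMeasurable
    · exact ae_of_all _ fun y => hbd _ _ y (S4.cs_bound k c D' hc _ (by linarith [hu32 y]))
  have hhint : Integrable (fun y : ℝ => XX (u y) * (riemannZeta (u y) - cs k c D' (u y)) *
      ker k c D (-x₁) y) := by
    refine (hint (Real.exp (-(D' * (1 - s.re + x₁ - 3 / 2))) * Cz)).mono' ?_ ?_
    · exact ((hcontX.mul (hcontZ.sub hcontC)).mul hcontK).aestronglyMeasurable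
    · exact ae_of_all _ fun y => hbd _ _ y (hE y)
  have hsplit : (∫ y : ℝ, riemannZeta (s + (((-x₁ : ℝ) : ℂ) + (y : ℂ) * I)) * ker k c D (-x₁) y) =
      (∫ y : ℝ, XX (u y) * cs k c D' (u y) * ker k c D (-x₁) y) +
      ∫ y : ℝ, XX (u y) * (riemannZeta (u y) - cs k c D' (u y)) * ker k c D (-x₁) y := by
    rw [← integral_add hgint hhint]
    congr 1
    ext y
    rw [hzeta]
    ring
  have hnorm : ‖∫ y : ℝ, XX (u y) * (riemannZeta (u y) - cs k c D' (u y)) * ker k c D (-x₁) y‖ ≤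
      M * (Real.exp (-(D' * (1 - s.re + x₁ - 3 / 2))) * Cz) * Real.pi := by
    refine (norm_integral_le_of_norm_le (hint _) (ae_of_all _ fun y => hbd _ _ y (hE y))).trans ?_
    rw [integral_const_mul, integral_univ_inv_one_add_sq]
  -- the residue
  have hR : ‖cexp ((D : ℂ) * (1 - s)) * Ps k c (1 - s) / (1 - s)‖ ≤ 24 ^ k * T ^ (-|K| - 2) := by
    have h1 : T / 8 ≤ ‖1 - s‖ := by
      have := Complex.abs_im_le_norm (1 - s)
      simp at this
      rw [abs_of_nonneg (by linarith)] at this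
      linarith
    have h2 : ‖cexp ((D : ℂ) * (1 - s))‖ ≤ Real.exp (L / 2) := by
      rw [Complex.norm_exp]
      apply Real.exp_le_exp.2
      simp
      rw [hD]
      nlinarith [mul_nonneg hLnn (by linarith : 0 ≤ s.re)]
    have h3 : ‖Ps k c (1 - s)‖ ≤ Real.exp (L / 2) * (24 ^ k * (T ^ k)⁻¹) := by
      refine (Pool.Agent.H448R2.GC.Ps_bound k c hc (1 - s)).trans ?_
      apply mul_le_mul _ _ (by positivity) (Real.exp_pos _).le
      · apply Real.exp_le_exp.2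
        rw [hkc]
        have h4 : max (1 - s).re 0 ≤ 1 := by
          apply max_le _ zero_le_one
          simp
          linarith
        have h5 : 0 ≤ max (1 - s).re 0 := le_max_right _ _
        have h6 : 0 ≤ L := by
          have : 0 ≤ (k:ℝ) / e := by positivity
          linarith
        have h7 : e * L ≤ 1 / 8 * L := mul_le_mul_of_nonneg_right he1 h6
        have h8 : e * L * max (1 - s).re 0 ≤ e * L * 1 := mul_le_mul_of_nonneg_left h4 (by positivity)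
        linarith
      · rw [← inv_pow, ← mul_pow]
        apply pow_le_pow_left₀ (by positivity)
        rw [← div_eq_mul_inv, div_le_div_iff₀ (by positivity) hT0]
        nlinarith [norm_nonneg (1 - s)]
    have h4 : Real.exp (L / 2) * Real.exp (L / 2) = T := by
      rw [← Real.exp_add, ← hexpL]
      congr 1
      ring
    rw [norm_div, norm_mul]
    calc ‖cexp ((D : ℂ) * (1 - s))‖ * ‖Ps k c (1 - s)‖ / ‖1 - s‖
        ≤ Real.exp (L / 2) * (Real.exp (L / 2) * (24 ^ k * (T ^ k)⁻¹)) / 1 := by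
          apply div_le_div₀ (by positivity) _ one_pos (by linarith)
          exact mul_le_mul h2 h3 (norm_nonneg _) (Real.exp_pos _).le
      _ = 24 ^ k * (T * (T ^ k)⁻¹) := by
          rw [div_one, ← mul_assoc, h4]
          ring
      _ ≤ 24 ^ k * T ^ (-|K| - 2) := by
          apply mul_le_mul_of_nonneg_left _ (by positivity)
          have : T * (T ^ k)⁻¹ = T ^ (1 - (k : ℝ)) := by
            rw [Real.rpow_sub hT0, Real.rpow_one, Real.rpow_natCast, div_eq_mul_inv]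
          rw [this]
          apply Real.rpow_le_rpow_of_exponent_le (by linarith)
          nlinarith
  -- the size of M
  have hMsize : M * (Real.exp (-(D' * (1 - s.re + x₁ - 3 / 2))) * Cz) ≤
      CX * 9 ^ (x₁ + 1) * 3 ^ k * Cz * T ^ (-|K| - 2) := by
    have h1 : (9 * T) ^ (1 / 2 - s.re + x₁) ≤ 9 ^ (x₁ + 1) * T ^ (1 / 2 - s.re + x₁) := by
      rw [Real.mul_rpow (by norm_num) hT0.le]
      apply mul_le_mul_of_nonneg_right _ (by positivity)
      exact Real.rpow_le_rpow_of_exponent_le (by norm_num) (by linarith)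
    have h2 : T ^ (1 / 2 - s.re + x₁) * Real.exp (-(D * x₁)) *
        Real.exp (-(D' * (1 - s.re + x₁ - 3 / 2))) ≤ T ^ (-|K| - 2) := by
      rw [Real.rpow_def_of_pos hT0, Real.rpow_def_of_pos hT0, ← Real.exp_add, ← Real.exp_add, ← hL,
        hD, hD']
      apply Real.exp_le_exp.2
      have hL0 : 0 ≤ L := by linarith
      have h3 : (1 / 2 - s.re + x₁) - 1 / 2 * x₁ - (1 / 2 + e) * (1 - s.re + x₁ - 3 / 2) ≤ -|K| - 2 := by
        have h9 : e * s.re ≤ 1 / 8 * (1 / 2) := mul_le_mul he1 hs2 (by linarith) (by norm_num)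
        nlinarith
      have h4 := mul_le_mul_of_nonneg_left h3 hL0
      calc L * (1 / 2 - s.re + x₁) + -(1 / 2 * L * x₁) + -((1 / 2 + e) * L * (1 - s.re + x₁ - 3 / 2))
          = L * ((1 / 2 - s.re + x₁) - 1 / 2 * x₁ - (1 / 2 + e) * (1 - s.re + x₁ - 3 / 2)) := by ring
        _ ≤ _ := h4
    rw [hM]
    calc CX * (9 * T) ^ (1 / 2 - s.re + x₁) * (Real.exp (-(D * x₁)) * 3 ^ k) *
          (Real.exp (-(D' * (1 - s.re + x₁ - 3 / 2))) * Cz)
        ≤ CX * (9 ^ (x₁ + 1) * T ^ (1 / 2 - s.re + x₁)) * (Real.exp (-(D * x₁)) * 3 ^ k) *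
          (Real.exp (-(D' * (1 - s.re + x₁ - 3 / 2))) * Cz) := by gcongr
      _ = CX * 9 ^ (x₁ + 1) * 3 ^ k * Cz * (T ^ (1 / 2 - s.re + x₁) * Real.exp (-(D * x₁)) *
          Real.exp (-(D' * (1 - s.re + x₁ - 3 / 2)))) := by ring
      _ ≤ _ := mul_le_mul_of_nonneg_left h2 (by positivity)
  -- conclusion
  have hfin : riemannZeta s - cs k c D s + (1 / (2 * Real.pi)) * ∫ y : ℝ,
      XX (u y) * cs k c D' (u y) * ker k c D (-x₁) y =
      -(cexp ((D : ℂ) * (1 - s)) * Ps k c (1 - s) / (1 - s)) - (1 / (2 * Real.pi)) *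
      ∫ y : ℝ, XX (u y) * (riemannZeta (u y) - cs k c D' (u y)) * ker k c D (-x₁) y := by
    rw [← hid', hsplit]
    ring
  have hgoal : (∫ y : ℝ, XX (1 - s - (((-x₁ : ℝ) : ℂ) + (y : ℂ) * I)) *
      cs k c D' (1 - s - (((-x₁ : ℝ) : ℂ) + (y : ℂ) * I)) * ker k c D (-x₁) y) =
      ∫ y : ℝ, XX (u y) * cs k c D' (u y) * ker k c D (-x₁) y := by
    rw [hu]
  rw [hgoal, hfin]
  refine (norm_sub_le _ _).trans ?_
  rw [norm_neg, norm_mul]
  have hpi : ‖(1 / (2 * (Real.pi : ℂ)))‖ = 1 / (2 * Real.pi) := by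
    rw [norm_div, norm_mul, Complex.norm_real, Real.norm_eq_abs, abs_of_pos Real.pi_pos]
    norm_num
  rw [hpi]
  have hpos : 0 ≤ M * (Real.exp (-(D' * (1 - s.re + x₁ - 3 / 2))) * Cz) := by positivity
  have h9 : 1 / (2 * Real.pi) * ‖∫ y : ℝ, XX (u y) * (riemannZeta (u y) - cs k c D' (u y)) *
      ker k c D (-x₁) y‖ ≤ M * (Real.exp (-(D' * (1 - s.re + x₁ - 3 / 2))) * Cz) := by
    calc 1 / (2 * Real.pi) * ‖∫ y : ℝ, XX (u y) * (riemannZeta (u y) - cs k c D' (u y)) *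
          ker k c D (-x₁) y‖
        ≤ 1 / (2 * Real.pi) * (M * (Real.exp (-(D' * (1 - s.re + x₁ - 3 / 2))) * Cz) * Real.pi) := by
          apply mul_le_mul_of_nonneg_left hnorm (by positivity)
      _ = (M * (Real.exp (-(D' * (1 - s.re + x₁ - 3 / 2))) * Cz)) / 2 := by
          field_simp
      _ ≤ _ := by linarith
  calc ‖cexp ((D : ℂ) * (1 - s)) * Ps k c (1 - s) / (1 - s)‖ + 1 / (2 * Real.pi) *
        ‖∫ y : ℝ, XX (u y) * (riemannZeta (u y) - cs k c D' (u y)) * ker k c D (-x₁) y‖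
      ≤ 24 ^ k * T ^ (-|K| - 2) + CX * 9 ^ (x₁ + 1) * 3 ^ k * Cz * T ^ (-|K| - 2) :=
        add_le_add hR (h9.trans hMsize)
    _ = (CX * 9 ^ (x₁ + 1) * 3 ^ k * Cz + 24 ^ k) * T ^ (-|K| - 2) := by ring
    _ ≤ T * T ^ (-|K| - 2) := mul_le_mul_of_nonneg_right hT2 (by positivity)
    _ = T ^ (-|K| - 1) := by
        rw [← Real.rpow_one_add' hT0.le (by linarith)]
        congr 1
        ring
    _ ≤ T ^ (-K) := by
        apply Real.rpow_le_rpow_of_exponent_le (by linarith)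
        linarith [le_abs_self K]

theorem afe {e : ℝ} (he : 0 < e) (he1 : e ≤ 1 / 8) (K : ℝ) : ∃ k₀ : ℕ, ∀ k : ℕ, k₀ ≤ k → ∃ T₀ : ℝ, ∀ T : ℝ,
    T₀ ≤ T → ∀ s : ℂ, 1 / 4 ≤ s.re → s.re ≤ 1 / 2 → T / 8 ≤ s.im → s.im ≤ 8 * T →
    ∀ x : ℝ, 0 < x → x ≤ 1 / 8 →
    ‖riemannZeta s - cs k (e * Real.log T / k) (1 / 2 * Real.log T) s +
      (1 / (2 * Real.pi)) * ∫ y : ℝ,
      XX (1 - s - (((-x : ℝ) : ℂ) + (y : ℂ) * I)) *
      cs k (e * Real.log T / k) ((1 / 2 + e) * Real.log T) (1 - s - (((-x : ℝ) : ℂ) + (y : ℂ) * I)) *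
      ker k (e * Real.log T / k) (1 / 2 * Real.log T) (-x) y‖ ≤ T ^ (-K) := by
  obtain ⟨x₁, hx₁, k₀, h1⟩ := afe_left he he1 K
  obtain ⟨k₁, h2⟩ := afe_back x₁ hx₁
  refine ⟨k₀ + k₁ + 1, fun k hk => ?_⟩
  obtain ⟨T₀, h3⟩ := h1 k (by omega)
  refine ⟨max T₀ 2, fun T hT s hs1 hs2 hs3 hs4 x hx0 hx8 => ?_⟩
  have hT2 : 2 ≤ T := (le_max_right _ _).trans hT
  have hc : 0 < e * Real.log T / k := by
    have : 0 < Real.log T := Real.log_pos (by linarith)
    have hk' : (0 : ℝ) < k := by exact_mod_cast (by omega : 0 < k)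
    positivity
  rw [← h2 k (by omega) _ _ _ hc s hs1 hs2 x hx0 hx8]
  exact h3 T ((le_max_left _ _).trans hT) s hs1 hs2 hs3 hs4

theorem zeta_pt {e : ℝ} (he : 0 < e) (he1 : e ≤ 1 / 8) (A : ℝ) (hA : 1 ≤ A) : ∃ k₀ : ℕ, ∀ k : ℕ, k₀ ≤ k → ∃ C T₀ : ℝ, 0 < C ∧ ∀ T : ℝ, T₀ ≤ T →
    ∀ v : ℝ, T / 8 ≤ v → v ≤ 8 * T →
    ‖riemannZeta (((sm A T + 1 / Real.log T : ℝ) : ℂ) + (v : ℂ) * I)‖ ^ 2 ≤
      3 * ‖cs k (e * Real.log T / k) (1 / 2 * Real.log T)
        (((sm A T + 1 / Real.log T : ℝ) : ℂ) + (v : ℂ) * I)‖ ^ 2 +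
      C * (∫ y : ℝ, ‖cs k (e * Real.log T / k) ((1 / 2 + e) * Real.log T)
        (((1 / 2 + A / Real.log T : ℝ) : ℂ) + ((v + y : ℝ) : ℂ) * I)‖ ^ 2 * gg (Real.log T) k y) +
      3 * (T ^ (-1 : ℝ)) ^ 2 := by
  obtain ⟨k₀, hk₀⟩ := Pool.Agent.T6.H57.SM.afe he he1 1
  refine ⟨max k₀ 2, fun k hk => ?_⟩
  have hk1 : k₀ ≤ k := le_trans (le_max_left _ _) hk
  have hk2 : 2 ≤ k := le_trans (le_max_right _ _) hk
  obtain ⟨T₁, hT₁⟩ := hk₀ k hk1
  obtain ⟨Ck, hCk, hker⟩ := Pool.Agent.H448R2.GC.ker_scale e 1 k he one_pos (by omega)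
  obtain ⟨CX, hCX, hXX⟩ := Pool.Agent.H448R2.GC.XX_upper (3 / 2)
  set C₃ : ℝ := CX * (9 * Real.exp A) * Ck with hC₃
  have hC₃pos : 0 < C₃ := by positivity
  refine ⟨3 * (C₃ ^ 2 * 2), max (max T₁ (Real.exp (4 * A + 8))) 1, by positivity, ?_⟩
  intro T hT v hv1 hv2
  have hTT : T₁ ≤ T := le_trans (le_trans (le_max_left _ _) (le_max_left _ _)) hT
  have hTe : Real.exp (4 * A + 8) ≤ T := le_trans (le_trans (le_max_right _ _) (le_max_left _ _)) hT
  have hT1 : 1 ≤ T := le_trans (le_max_right _ _) hT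
  have hT0 : 0 < T := by linarith
  set L := Real.log T with hL
  have hLge : 4 * A + 8 ≤ L := by rw [hL, Real.le_log_iff_exp_le hT0]; exact hTe
  have hL1 : 1 ≤ L := by linarith
  have hL0 : 0 < L := by linarith
  have hAL : A / L ≤ 1 / 4 := by rw [div_le_div_iff₀ hL0 (by norm_num)]; linarith
  have hAL0 : 0 ≤ A / L := by positivity
  have h1L : 1 / L ≤ 1 / 8 := by rw [div_le_div_iff₀ hL0 (by norm_num)]; linarith
  have h1L0 : 0 < 1 / L := by positivity
  have h1AL : 1 / L ≤ A / L := div_le_div_of_nonneg_right hA hL0.le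
  set s : ℂ := ((sm A T + 1 / L : ℝ) : ℂ) + (v : ℂ) * I with hs
  have hsre : s.re = 1 / 2 - A / L + 1 / L := by simp [hs, sm, ← hL]
  have hsim : s.im = v := by simp [hs]
  have hafe := hT₁ T hTT s (by rw [hsre]; linarith) (by rw [hsre]; linarith) (by rw [hsim]; exact hv1)
    (by rw [hsim]; exact hv2) (1 / L) h1L0 h1L
  rw [← hL] at hafe
  set c : ℝ := e * L / k with hc
  set J : ℂ := ∫ y : ℝ, XX (1 - s - (((-(1 / L) : ℝ) : ℂ) + (y : ℂ) * I)) *
      cs k c ((1 / 2 + e) * L) (1 - s - (((-(1 / L) : ℝ) : ℂ) + (y : ℂ) * I)) *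
      ker k c (1 / 2 * L) (-(1 / L)) y with hJ
  set N : ℝ → ℝ := fun y => ‖cs k c ((1 / 2 + e) * L) (((1 / 2 + A / L : ℝ) : ℂ) + ((v + y : ℝ) : ℂ) * I)‖
    with hN
  have hu : ∀ y : ℝ, 1 - s - (((-(1 / L) : ℝ) : ℂ) + (y : ℂ) * I) =
      (starRingEnd ℂ) (((1 / 2 + A / L : ℝ) : ℂ) + ((v + y : ℝ) : ℂ) * I) := by
    intro y
    rw [hs]
    apply Complex.ext
    · simp [sm, ← hL]; ring
    · simp; ring
  have hN0 : ∀ y, 0 ≤ N y := fun y => norm_nonneg _
  obtain ⟨B, hB0, hB⟩ := cs_bdd k c ((1 / 2 + e) * L)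
  have hNB : ∀ y, N y ≤ B := by
    intro y
    refine hB _ ?_
    have : (((1 / 2 + A / L : ℝ) : ℂ) + ((v + y : ℝ) : ℂ) * I).re = 1 / 2 + A / L := by simp
    rw [this]; positivity
  have hNc : Continuous N := by
    rw [hN]
    exact (((cs_cont k c ((1 / 2 + e) * L)).comp (by fun_prop :
      Continuous (fun y : ℝ => (((1 / 2 + A / L : ℝ) : ℂ) + ((v + y : ℝ) : ℂ) * I))))).norm
  have hgi := gg_int L k hL1 hk2
  have hg0 : ∀ y, 0 ≤ gg L k y := fun y => gg_nonneg L k y hL1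
  have hi1 : Integrable (fun y => N y * gg L k y) := by
    refine hgi.bdd_mul hNc.aestronglyMeasurable (c := B) (Eventually.of_forall fun y => ?_)
    rw [Real.norm_eq_abs, abs_of_nonneg (hN0 y)]; exact hNB y
  have hi2 : Integrable (fun y => N y ^ 2 * gg L k y) := by
    refine hgi.bdd_mul (hNc.pow 2).aestronglyMeasurable (c := B ^ 2) (Eventually.of_forall fun y => ?_)
    rw [Real.norm_eq_abs, abs_of_nonneg (by positivity)]
    exact pow_le_pow_left₀ (hN0 y) (hNB y) 2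
  -- size of the kernel
  have hpt : ∀ y : ℝ, ‖XX (1 - s - (((-(1 / L) : ℝ) : ℂ) + (y : ℂ) * I)) *
      cs k c ((1 / 2 + e) * L) (1 - s - (((-(1 / L) : ℝ) : ℂ) + (y : ℂ) * I)) *
      ker k c (1 / 2 * L) (-(1 / L)) y‖ ≤ C₃ * (N y * gg L k y) := by
    intro y
    rw [hu y, norm_mul, norm_mul, cs_conj, Complex.norm_conj]
    have hre : ((starRingEnd ℂ) (((1 / 2 + A / L : ℝ) : ℂ) + ((v + y : ℝ) : ℂ) * I)).re = 1 / 2 + A / L := by
      simp
    have him : ((starRingEnd ℂ) (((1 / 2 + A / L : ℝ) : ℂ) + ((v + y : ℝ) : ℂ) * I)).im = -(v + y) := by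
      simp
    have hX := hXX ((starRingEnd ℂ) (((1 / 2 + A / L : ℝ) : ℂ) + ((v + y : ℝ) : ℂ) * I))
      (by rw [hre]; linarith) (by rw [hre]; linarith)
    rw [hre, him, abs_neg] at hX
    have hexp : (1 / 2 + A / L - 1 / 2 : ℝ) = A / L := by ring
    rw [hexp] at hX
    have hLy : 0 ≤ L * |y| := by positivity
    have h1 : (1 + |v + y|) ^ (A / L) ≤ 9 * Real.exp A * (1 + L * |y|) := by
      have hv0 : 0 ≤ v := le_trans (by positivity) hv1
      have ha : 1 + |v + y| ≤ (9 * T) * (1 + L * |y|) := by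
        have h3 : |v + y| ≤ v + |y| := by
          refine (abs_add_le _ _).trans ?_
          rw [abs_of_nonneg hv0]
        have h4 : |y| ≤ L * |y| := le_mul_of_one_le_left (abs_nonneg y) hL1
        have h5 : 1 + (v + |y|) ≤ 9 * T + L * |y| := by linarith
        have h6 : L * |y| ≤ 9 * T * (L * |y|) := le_mul_of_one_le_left hLy (by linarith)
        calc 1 + |v + y| ≤ 1 + (v + |y|) := by linarith
          _ ≤ 9 * T + L * |y| := h5
          _ ≤ 9 * T + 9 * T * (L * |y|) := by linarith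
          _ = _ := by ring
      calc (1 + |v + y|) ^ (A / L) ≤ ((9 * T) * (1 + L * |y|)) ^ (A / L) :=
            Real.rpow_le_rpow (by positivity) ha hAL0
        _ = (9 * T) ^ (A / L) * (1 + L * |y|) ^ (A / L) := Real.mul_rpow (by positivity) (by positivity)
        _ ≤ (9 * Real.exp A) * (1 + L * |y|) := by
            refine mul_le_mul ?_ ?_ (by positivity) (by positivity)
            · rw [Real.mul_rpow (by norm_num) hT0.le]
              refine mul_le_mul ?_ ?_ (by positivity) (by norm_num)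
              · calc (9 : ℝ) ^ (A / L) ≤ (9 : ℝ) ^ (1 : ℝ) :=
                      Real.rpow_le_rpow_of_exponent_le (by norm_num) (by linarith)
                  _ = 9 := Real.rpow_one 9
              · rw [Real.rpow_def_of_pos hT0, ← hL]
                have : L * (A / L) = A := by field_simp
                rw [this]
            · calc (1 + L * |y|) ^ (A / L) ≤ (1 + L * |y|) ^ (1 : ℝ) :=
                    Real.rpow_le_rpow_of_exponent_le (by linarith) (by linarith)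
                _ = _ := Real.rpow_one _
    have hk3 := hker L (1 / 2 * L) (-(1 / L)) y hL1 (by rw [abs_of_pos (by positivity)]; linarith)
      (by rw [abs_neg, abs_of_pos h1L0]) (by rw [abs_neg, abs_of_pos h1L0])
    calc ‖XX ((starRingEnd ℂ) (((1 / 2 + A / L : ℝ) : ℂ) + ((v + y : ℝ) : ℂ) * I))‖ * N y *
          ‖ker k c (1 / 2 * L) (-(1 / L)) y‖
        ≤ (CX * (9 * Real.exp A * (1 + L * |y|))) * N y * (Ck * (L / (1 + L * |y|) ^ (k + 1))) := by
          refine mul_le_mul ?_ hk3 (norm_nonneg _) ?_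
          · refine mul_le_mul_of_nonneg_right ?_ (hN0 y)
            exact hX.trans (mul_le_mul_of_nonneg_left h1 hCX.le)
          · have := hN0 y; positivity
      _ = C₃ * (N y * gg L k y) := by
          rw [hC₃]; unfold gg
          have hne : (1 + L * |y|) ≠ 0 := by positivity
          field_simp
          ring
  have hJb : ‖J‖ ≤ C₃ * ∫ y, N y * gg L k y := by
    rw [hJ, ← integral_const_mul]
    exact norm_integral_le_of_norm_le (hi1.const_mul C₃) (Eventually.of_forall hpt)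
  have hI0 : 0 ≤ ∫ y, N y * gg L k y := integral_nonneg fun y => mul_nonneg (hN0 y) (hg0 y)
  have hcsq := cs_ineq (gg L k) N hg0 hgi (Pool.Agent.H448R2.GC.scale_integral L k hL1 hk2) hi1 hi2
  have hT1' : 0 ≤ T ^ (-1 : ℝ) := by positivity
  have hz : ‖riemannZeta s‖ ≤ ‖cs k c (1 / 2 * L) s‖ + C₃ * (∫ y, N y * gg L k y) + T ^ (-1 : ℝ) := by
    have hpi : ‖(1 / (2 * Real.pi) : ℂ)‖ ≤ 1 := by
      have e : (1 / (2 * Real.pi) : ℂ) = ((1 / (2 * Real.pi) : ℝ) : ℂ) := by push_cast; ring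
      rw [e, Complex.norm_real, Real.norm_eq_abs, abs_of_pos (by positivity)]
      rw [div_le_one (by positivity)]
      linarith [Real.pi_gt_three]
    have hsplit : riemannZeta s = (riemannZeta s - cs k c (1 / 2 * L) s + (1 / (2 * Real.pi)) * J) +
        cs k c (1 / 2 * L) s - (1 / (2 * Real.pi)) * J := by ring
    have h3 : ‖(1 / (2 * Real.pi) : ℂ) * J‖ ≤ ‖J‖ := by
      rw [norm_mul]
      exact mul_le_of_le_one_left (norm_nonneg _) hpi
    calc ‖riemannZeta s‖ = ‖(riemannZeta s - cs k c (1 / 2 * L) s + (1 / (2 * Real.pi)) * J) +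
        cs k c (1 / 2 * L) s - (1 / (2 * Real.pi)) * J‖ := congrArg norm hsplit
      _ ≤ ‖riemannZeta s - cs k c (1 / 2 * L) s + (1 / (2 * Real.pi)) * J‖ +
          ‖cs k c (1 / 2 * L) s‖ + ‖(1 / (2 * Real.pi) : ℂ) * J‖ :=
          (norm_sub_le _ _).trans (add_le_add_left (norm_add_le _ _) _)
      _ ≤ _ := by linarith
  have hsum : ∀ a b d : ℝ, (a + b + d) ^ 2 ≤ 3 * a ^ 2 + 3 * b ^ 2 + 3 * d ^ 2 := by
    intro a b d
    nlinarith [sq_nonneg (a - b), sq_nonneg (a - d), sq_nonneg (b - d)]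
  calc ‖riemannZeta s‖ ^ 2 ≤
        (‖cs k c (1 / 2 * L) s‖ + C₃ * (∫ y, N y * gg L k y) + T ^ (-1 : ℝ)) ^ 2 :=
        pow_le_pow_left₀ (norm_nonneg _) hz 2
    _ ≤ 3 * ‖cs k c (1 / 2 * L) s‖ ^ 2 + 3 * (C₃ * ∫ y, N y * gg L k y) ^ 2 + 3 * (T ^ (-1 : ℝ)) ^ 2 :=
        hsum _ _ _
    _ ≤ _ := by
        have h4 : 3 * (C₃ * ∫ y, N y * gg L k y) ^ 2 ≤ 3 * (C₃ ^ 2 * 2) * ∫ y, N y ^ 2 * gg L k y := by
          rw [mul_pow]
          have := mul_le_mul_of_nonneg_left hcsq (by positivity : (0 : ℝ) ≤ 3 * C₃ ^ 2)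
          nlinarith
        linarith


end Pool.Agent.T6.H57.SM
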