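import Mathlib

set_option autoImplicit false

/-! A mean value inequality for Dirichlet polynomials over short intervals. -/

namespace Pool.Agent.T6.H57.SM

open Finset MeasureTheory Complex

/-- the Gaussian weight -/
noncomputable def gw (U H t : ℝ) : ℝ := Real.exp (-((t - U) / H) ^ 2)

lemma gw_pos (U H t : ℝ) : 0 < gw U H t := Real.exp_pos _

lemma gw_cont (U H : ℝ) : Continuous (gw U H) := by unfold gw; fun_prop

lemma gauss_aux (H l : ℝ) (U x : ℝ) : ((gw U H (H * x + U) : ℝ) : ℂ) * cexp (I * l * ((H * x + U : ℝ) : ℂ)) =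
    cexp (I * l * U) * (cexp (I * (l * H : ℝ) * x) * cexp (-(1:ℂ) * x ^ 2)) ∨ H = 0 := by
  by_cases hH : H = 0
  · exact Or.inr hH
  left
  unfold gw
  rw [Complex.ofReal_exp, ← Complex.exp_add, ← Complex.exp_add, ← Complex.exp_add]
  congr 1
  have e : (H * x + U - U) / H = x := by field_simp; ring
  rw [e]
  push_cast
  ring

/-- the Gaussian integral -/
lemma gauss_int {H : ℝ} (hH : 0 < H) (U l : ℝ) :
    Integrable (fun t : ℝ => ((gw U H t : ℝ) : ℂ) * cexp (I * l * t)) ∧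
    ‖∫ t : ℝ, ((gw U H t : ℝ) : ℂ) * cexp (I * l * t)‖ ≤ 2 * H * Real.exp (-(l * H) ^ 2 / 4) := by
  have h0 : ∀ x : ℝ, ((gw U H (H * x + U) : ℝ) : ℂ) * cexp (I * l * ((H * x + U : ℝ) : ℂ)) =
      cexp (I * l * U) * (cexp (I * (l * H : ℝ) * x) * cexp (-(1:ℂ) * x ^ 2)) := fun x =>
    (gauss_aux H l U x).resolve_right hH.ne'
  constructor
  · have h1 : Integrable (fun x : ℝ => ((gw U H (H * x + U) : ℝ) : ℂ) * cexp (I * l * ((H * x + U : ℝ) : ℂ))) := by
      have h2 := (integrable_cexp_quadratic (b := 1) (by simp) (I * (l * H : ℝ)) 0).const_mul (cexp (I * l * U))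
      refine h2.congr (Filter.Eventually.of_forall fun x => ?_)
      simp only
      rw [h0 x, add_zero, add_comm, Complex.exp_add]
    have h3 := h1.comp_sub_right (U / H)
    have h4 := h3.comp_mul_left' (R := H⁻¹) (inv_ne_zero hH.ne')
    refine h4.congr (Filter.Eventually.of_forall fun t => ?_)
    simp only
    have e : H * (H⁻¹ * t - U / H) + U = t := by field_simp; ring
    rw [e]
  · have h1 := Measure.integral_comp_mul_left (fun t : ℝ => ((gw U H (t + U) : ℝ) : ℂ) * cexp (I * l * ((t + U : ℝ) : ℂ))) H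
    rw [integral_add_right_eq_self (fun t : ℝ => ((gw U H t : ℝ) : ℂ) * cexp (I * l * (t : ℂ))) U] at h1
    have h2 : ∫ t : ℝ, ((gw U H t : ℝ) : ℂ) * cexp (I * l * t) = H * ∫ x : ℝ,
        ((gw U H (H * x + U) : ℝ) : ℂ) * cexp (I * l * ((H * x + U : ℝ) : ℂ)) := by
      rw [h1, abs_of_pos (inv_pos.mpr hH), Complex.real_smul]
      push_cast
      have : (H:ℂ) ≠ 0 := by exact_mod_cast hH.ne'
      field_simp
    rw [h2]
    simp_rw [h0]
    rw [integral_const_mul, fourierIntegral_gaussian (by simp)]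
    rw [norm_mul, norm_mul, norm_mul, Complex.norm_real, Real.norm_of_nonneg hH.le]
    have e1 : ‖cexp (I * l * U)‖ = 1 := by
      have : I * l * U = ((l * U : ℝ) : ℂ) * I := by push_cast; ring
      rw [this, Complex.norm_exp_ofReal_mul_I]
    have e2 : ‖cexp (-((l * H : ℝ) : ℂ) ^ 2 / (4 * 1))‖ = Real.exp (-(l * H) ^ 2 / 4) := by
      rw [Complex.norm_exp]
      congr 1
      have : (-((l * H : ℝ) : ℂ) ^ 2 / (4 * 1)) = ((-(l * H) ^ 2 / 4 : ℝ) : ℂ) := by push_cast; ring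
      rw [this, Complex.ofReal_re]
    have e3 : ‖((Real.pi : ℂ) / 1) ^ (1 / 2 : ℂ)‖ ≤ 2 := by
      rw [div_one]
      have : ((Real.pi : ℂ)) ^ (1 / 2 : ℂ) = ((Real.pi ^ (1 / 2 : ℝ) : ℝ) : ℂ) := by
        rw [Complex.ofReal_cpow Real.pi_pos.le]; push_cast; rfl
      rw [this, Complex.norm_real, Real.norm_of_nonneg (by positivity), ← Real.sqrt_eq_rpow]
      rw [Real.sqrt_le_left (by norm_num)]
      have := Real.pi_lt_four
      linarith
    rw [e1, e2, one_mul]
    calc H * (‖((Real.pi : ℂ) / 1) ^ (1 / 2 : ℂ)‖ * Real.exp (-(l * H) ^ 2 / 4)) ≤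
        H * (2 * Real.exp (-(l * H) ^ 2 / 4)) := by gcongr
      _ = _ := by ring

/-- sums of Gaussians over the integers -/
lemma sum_gauss {h : ℝ} (hh : 0 < h) (M : ℕ) :
    ∑ j ∈ range (M + 1), Real.exp (-(j * h) ^ 2 / 4) ≤ 2 + 5 / h := by
  obtain ⟨q, hq⟩ : ∃ q : ℕ, q = ⌈1 / h⌉₊ := ⟨_, rfl⟩
  have h1h : 0 < 1 / h := by positivity
  have hq1 : 1 / h ≤ q := by rw [hq]; exact Nat.le_ceil _
  have hq2 : (q:ℝ) < 1 / h + 1 := by rw [hq]; exact Nat.ceil_lt_add_one h1h.le
  have hq0 : 0 < q := by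
    have : (0:ℝ) < q := by linarith
    exact_mod_cast this
  have hsub : range (M + 1) ⊆ range (q + 1) ∪ Ioc q (max q M) := by
    intro j hj
    rw [mem_range] at hj
    rw [mem_union, mem_range, mem_Ioc]
    by_cases h : j < q + 1
    · exact Or.inl h
    · exact Or.inr ⟨by omega, le_trans (by omega) (le_max_right _ _)⟩
  have h1 : ∑ j ∈ range (M + 1), Real.exp (-(j * h) ^ 2 / 4) ≤
      ∑ j ∈ range (q + 1) ∪ Ioc q (max q M), Real.exp (-(j * h) ^ 2 / 4) :=
    sum_le_sum_of_subset_of_nonneg hsub fun _ _ _ => (Real.exp_pos _).le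
  have hd : Disjoint (range (q + 1)) (Ioc q (max q M)) := by
    rw [disjoint_left]
    intro j hj hj2
    rw [mem_range] at hj
    rw [mem_Ioc] at hj2
    omega
  rw [sum_union hd] at h1
  have h2 : ∑ j ∈ range (q + 1), Real.exp (-(j * h) ^ 2 / 4) ≤ q + 1 := by
    calc _ ≤ ∑ j ∈ range (q + 1), (1:ℝ) := by
          refine sum_le_sum fun j _ => ?_
          rw [Real.exp_le_one_iff]
          have := sq_nonneg (j * h)
          linarith
      _ = _ := by simp
  have h3 : ∑ j ∈ Ioc q (max q M), Real.exp (-(j * h) ^ 2 / 4) ≤ 4 / h := by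
    calc _ ≤ ∑ j ∈ Ioc q (max q M), 4 / h ^ 2 * ((j:ℝ) ^ 2)⁻¹ := by
          refine sum_le_sum fun j hj => ?_
          rw [mem_Ioc] at hj
          have hj0 : (0:ℝ) < j := by exact_mod_cast (by omega : 0 < j)
          have hx : 0 < (j * h) ^ 2 / 4 := by positivity
          have e : -(j * h) ^ 2 / 4 = -((j * h) ^ 2 / 4) := by ring
          rw [e, Real.exp_neg]
          have h5 : (j * h) ^ 2 / 4 ≤ Real.exp ((j * h) ^ 2 / 4) := by
            have := Real.add_one_le_exp ((j * h) ^ 2 / 4); linarith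
          refine (inv_anti₀ hx h5).trans (le_of_eq ?_)
          field_simp
      _ = 4 / h ^ 2 * ∑ j ∈ Ioc q (max q M), ((j:ℝ) ^ 2)⁻¹ := by rw [mul_sum]
      _ ≤ 4 / h ^ 2 * (q:ℝ)⁻¹ := by
          refine mul_le_mul_of_nonneg_left ?_ (by positivity)
          have := sum_Ioc_inv_sq_le_sub (α := ℝ) hq0.ne' (le_max_left q M)
          have h6 : (0:ℝ) ≤ ((max q M : ℕ) : ℝ)⁻¹ := by positivity
          linarith
      _ ≤ 4 / h ^ 2 * h := by
          refine mul_le_mul_of_nonneg_left ?_ (by positivity)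
          rw [inv_le_comm₀ (by exact_mod_cast hq0) hh, ← one_div]
          exact hq1
      _ = 4 / h := by field_simp
  have h4 : 5 / h = 1 / h + 4 / h := by ring
  linarith

lemma log_sep {M m n : ℕ} (hm : 1 ≤ m) (hn : m ≤ n) (hnM : n ≤ M) :
    ((n - m : ℕ) : ℝ) / M ≤ Real.log n - Real.log m := by
  have hm0 : (0:ℝ) < m := by exact_mod_cast hm
  have hn0 : (0:ℝ) < n := by exact_mod_cast (by omega : 0 < n)
  have hM0 : (0:ℝ) < M := by exact_mod_cast (by omega : 0 < M)
  have h1 := Real.one_sub_inv_le_log_of_pos (div_pos hn0 hm0)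
  rw [Real.log_div hn0.ne' hm0.ne', inv_div] at h1
  refine le_trans ?_ h1
  rw [Nat.cast_sub hn, div_le_iff₀ hM0]
  have e : (1 - (m:ℝ) / n) * M = (n - m) * (M / n) := by field_simp
  rw [e]
  have h2 : (1:ℝ) ≤ M / n := by
    rw [le_div_iff₀ hn0]; rw [one_mul]; exact_mod_cast hnM
  have h3 : (0:ℝ) ≤ n - m := by
    have : (m:ℝ) ≤ n := by exact_mod_cast hn
    linarith
  exact le_mul_of_one_le_right h3 h2

/-- the sum over a row -/
lemma row_sum {H : ℝ} (hH : 0 < H) {M : ℕ} {S : Finset ℕ} (hS : S ⊆ Icc 1 M) {m : ℕ} (hm : m ∈ S) :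
    ∑ n ∈ S, 2 * H * Real.exp (-((Real.log n - Real.log m) * H) ^ 2 / 4) ≤ 20 * (H + M) := by
  have hm' := mem_Icc.mp (hS hm)
  have hM0 : (0:ℝ) < M := by exact_mod_cast (by omega : 0 < M)
  set h : ℝ := H / M with hh
  have hh0 : 0 < h := by positivity
  set g : ℕ → ℝ := fun j => Real.exp (-(j * h) ^ 2 / 4) with hg
  have hg0 : ∀ j, 0 ≤ g j := fun j => (Real.exp_pos _).le
  have hterm : ∀ n ∈ S, Real.exp (-((Real.log n - Real.log m) * H) ^ 2 / 4) ≤
      (if m ≤ n then g (n - m) else 0) + (if n ≤ m then g (m - n) else 0) := by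
    intro n hn
    have hn' := mem_Icc.mp (hS hn)
    have key : ∀ j : ℕ, (j:ℝ) / M ≤ |Real.log n - Real.log m| →
        Real.exp (-((Real.log n - Real.log m) * H) ^ 2 / 4) ≤ g j := by
      intro j hj
      rw [hg]
      refine Real.exp_le_exp.mpr ?_
      have h1 : (j * h) ^ 2 ≤ ((Real.log n - Real.log m) * H) ^ 2 := by
        rw [← sq_abs ((Real.log n - Real.log m) * H), abs_mul, abs_of_pos hH]
        refine pow_le_pow_left₀ (by positivity) ?_ 2
        calc (j:ℝ) * h = j / M * H := by rw [hh]; ring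
          _ ≤ _ := mul_le_mul_of_nonneg_right hj hH.le
      linarith
    rcases le_total m n with hmn | hmn
    · rw [if_pos hmn]
      have h2 := log_sep hm'.1 hmn hn'.2
      have h3 := key (n - m) (h2.trans (le_abs_self _))
      have h4 : 0 ≤ (if n ≤ m then g (m - n) else 0) := by split_ifs; exacts [hg0 _, le_rfl]
      linarith
    · rw [if_pos hmn]
      have h2 := log_sep hn'.1 hmn hm'.2
      have h3 := key (m - n) (h2.trans (by rw [← abs_neg]; refine le_trans (le_of_eq ?_) (le_abs_self _); ring))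
      have h4 : 0 ≤ (if m ≤ n then g (n - m) else 0) := by split_ifs; exacts [hg0 _, le_rfl]
      linarith
  have hsum := sum_gauss hh0 M
  have s1 : ∑ n ∈ S, (if m ≤ n then g (n - m) else 0) ≤ 2 + 5 / h := by
    rw [← sum_filter]
    refine le_trans ?_ hsum
    have hinj : Set.InjOn (fun n : ℕ => n - m) ↑(S.filter fun n => m ≤ n) := by
      intro a ha b hb hab
      rw [mem_coe, mem_filter] at ha hb
      simp only at hab
      omega
    rw [← sum_image (g := fun n : ℕ => n - m) (f := g) hinj]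
    refine sum_le_sum_of_subset_of_nonneg ?_ fun j _ _ => hg0 j
    intro j hj
    rw [mem_image] at hj
    obtain ⟨n, hn, rfl⟩ := hj
    rw [mem_filter] at hn
    have := mem_Icc.mp (hS hn.1)
    rw [mem_range]; omega
  have s2 : ∑ n ∈ S, (if n ≤ m then g (m - n) else 0) ≤ 2 + 5 / h := by
    rw [← sum_filter]
    refine le_trans ?_ hsum
    have hinj : Set.InjOn (fun n : ℕ => m - n) ↑(S.filter fun n => n ≤ m) := by
      intro a ha b hb hab
      rw [mem_coe, mem_filter] at ha hb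
      simp only at hab
      omega
    rw [← sum_image (g := fun n : ℕ => m - n) (f := g) hinj]
    refine sum_le_sum_of_subset_of_nonneg ?_ fun j _ _ => hg0 j
    intro j hj
    rw [mem_image] at hj
    obtain ⟨n, hn, rfl⟩ := hj
    rw [mem_range]; omega
  rw [← mul_sum]
  have h5 := sum_le_sum hterm
  rw [sum_add_distrib] at h5
  have e5 : H * (5 / h) = 5 * M := by rw [hh]; field_simp
  calc 2 * H * ∑ n ∈ S, Real.exp (-((Real.log n - Real.log m) * H) ^ 2 / 4) ≤ 2 * H * (2 * (2 + 5 / h)) := by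
        refine mul_le_mul_of_nonneg_left ?_ (by positivity)
        linarith
    _ = 8 * H + 4 * (H * (5 / h)) := by ring
    _ ≤ _ := by rw [e5]; linarith

/-- the mean value inequality -/
theorem mvg {H : ℝ} (hH : 0 < H) (U : ℝ) {M : ℕ} {S : Finset ℕ} (hS : S ⊆ Icc 1 M) (c : ℕ → ℂ) :
    ∫ t in U..(U + H), ‖∑ n ∈ S, c n * cexp (-(I * Real.log n * t))‖ ^ 2 ≤ 60 * (H + M) * ∑ n ∈ S, ‖c n‖ ^ 2 := by
  set F : ℝ → ℂ := fun t => ∑ n ∈ S, c n * cexp (-(I * Real.log n * t)) with hF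
  have hFc : Continuous F := by
    rw [hF]
    refine continuous_finsetSum _ fun n _ => ?_
    fun_prop
  have hG := fun l => gauss_int hH U l
  -- expansion
  have e1 : ∀ t : ℝ, ((gw U H t * ‖F t‖ ^ 2 : ℝ) : ℂ) = ∑ m ∈ S, ∑ n ∈ S, (c m * (starRingEnd ℂ) (c n)) *
      (((gw U H t : ℝ) : ℂ) * cexp (I * ((Real.log n - Real.log m : ℝ) : ℂ) * t)) := by
    intro t
    rw [Complex.ofReal_mul, Complex.ofReal_pow, ← Complex.mul_conj', hF]
    simp only
    rw [map_sum, sum_mul_sum, mul_sum]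
    refine sum_congr rfl fun m _ => ?_
    rw [mul_sum]
    refine sum_congr rfl fun n _ => ?_
    rw [map_mul, ← Complex.exp_conj]
    have e2 : (starRingEnd ℂ) (-(I * (Real.log n : ℂ) * (t:ℂ))) = I * Real.log n * t := by
      rw [map_neg, map_mul, map_mul, Complex.conj_I, Complex.conj_ofReal, Complex.conj_ofReal]; ring
    rw [e2]
    have e3 : cexp (I * ((Real.log n - Real.log m : ℝ) : ℂ) * t) = cexp (-(I * Real.log m * t)) * cexp (I * Real.log n * t) := by
      rw [← Complex.exp_add]; congr 1; push_cast; ring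
    rw [e3]; ring
  have hint : Integrable (fun t : ℝ => ((gw U H t * ‖F t‖ ^ 2 : ℝ) : ℂ)) := by
    simp_rw [e1]
    exact integrable_finsetSum _ fun m _ => integrable_finsetSum _ fun n _ => ((hG _).1).const_mul _
  have hintR : Integrable (fun t : ℝ => gw U H t * ‖F t‖ ^ 2) := by
    have := hint.re
    refine this.congr (Filter.Eventually.of_forall fun t => ?_)
    simp only [RCLike.re_eq_complex_re, Complex.ofReal_re]
  have h2 : ∫ t : ℝ, gw U H t * ‖F t‖ ^ 2 ≤ ∑ m ∈ S, ∑ n ∈ S, ‖c m‖ * ‖c n‖ *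
      (2 * H * Real.exp (-((Real.log n - Real.log m) * H) ^ 2 / 4)) := by
    have h3 : ((∫ t : ℝ, gw U H t * ‖F t‖ ^ 2 : ℝ) : ℂ) = ∑ m ∈ S, ∑ n ∈ S, (c m * (starRingEnd ℂ) (c n)) *
        ∫ t : ℝ, (((gw U H t : ℝ) : ℂ) * cexp (I * ((Real.log n - Real.log m : ℝ) : ℂ) * t)) := by
      rw [← integral_complex_ofReal]
      simp_rw [e1]
      rw [integral_finsetSum _ fun m _ => integrable_finsetSum _ fun n _ => ((hG _).1).const_mul _]
      refine sum_congr rfl fun m _ => ?_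
      rw [integral_finsetSum _ fun n _ => ((hG _).1).const_mul _]
      refine sum_congr rfl fun n _ => ?_
      rw [integral_const_mul]
    have h4 : ∫ t : ℝ, gw U H t * ‖F t‖ ^ 2 ≤ ‖((∫ t : ℝ, gw U H t * ‖F t‖ ^ 2 : ℝ) : ℂ)‖ := by
      rw [Complex.norm_real]; exact le_abs_self _
    refine h4.trans ?_
    rw [h3]
    refine (norm_sum_le _ _).trans (sum_le_sum fun m _ => (norm_sum_le _ _).trans (sum_le_sum fun n _ => ?_))
    rw [norm_mul, norm_mul, Complex.norm_conj]
    exact mul_le_mul_of_nonneg_left (hG _).2 (by positivity)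
  have h5 : ∑ m ∈ S, ∑ n ∈ S, ‖c m‖ * ‖c n‖ * (2 * H * Real.exp (-((Real.log n - Real.log m) * H) ^ 2 / 4)) ≤
      20 * (H + M) * ∑ n ∈ S, ‖c n‖ ^ 2 := by
    set K : ℕ → ℕ → ℝ := fun m n => 2 * H * Real.exp (-((Real.log n - Real.log m) * H) ^ 2 / 4) with hK
    have hK0 : ∀ m n, 0 ≤ K m n := fun m n => by rw [hK]; positivity
    have hKs : ∀ m n, K m n = K n m := by
      intro m n
      rw [hK]; simp only
      congr 2
      ring
    have h6 : ∑ m ∈ S, ∑ n ∈ S, ‖c m‖ * ‖c n‖ * K m n ≤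
        ∑ m ∈ S, ∑ n ∈ S, (‖c m‖ ^ 2 / 2 * K m n + ‖c n‖ ^ 2 / 2 * K m n) := by
      refine sum_le_sum fun m _ => sum_le_sum fun n _ => ?_
      have h7 : ‖c m‖ * ‖c n‖ ≤ ‖c m‖ ^ 2 / 2 + ‖c n‖ ^ 2 / 2 := by nlinarith [sq_nonneg (‖c m‖ - ‖c n‖)]
      have := mul_le_mul_of_nonneg_right h7 (hK0 m n)
      linarith
    refine h6.trans ?_
    simp_rw [sum_add_distrib]
    have e7 : ∑ m ∈ S, ∑ n ∈ S, ‖c n‖ ^ 2 / 2 * K m n = ∑ m ∈ S, ∑ n ∈ S, ‖c m‖ ^ 2 / 2 * K m n := by
      rw [sum_comm]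
      refine sum_congr rfl fun m _ => sum_congr rfl fun n _ => ?_
      rw [hKs]
    rw [e7, ← two_mul, mul_sum, mul_sum]
    refine sum_le_sum fun m hm => ?_
    rw [← mul_sum]
    have h8 := row_sum hH hS hm
    have h9 : 0 ≤ ‖c m‖ ^ 2 := sq_nonneg _
    calc 2 * (‖c m‖ ^ 2 / 2 * ∑ n ∈ S, K m n) = ‖c m‖ ^ 2 * ∑ n ∈ S, K m n := by ring
      _ ≤ ‖c m‖ ^ 2 * (20 * (H + M)) := mul_le_mul_of_nonneg_left h8 h9
      _ = _ := by ring
  have h10 : ∫ t in U..(U + H), ‖F t‖ ^ 2 ≤ 3 * ∫ t : ℝ, gw U H t * ‖F t‖ ^ 2 := by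
    rw [intervalIntegral.integral_of_le (by linarith), ← integral_const_mul]
    calc ∫ t in Set.Ioc U (U + H), ‖F t‖ ^ 2 ≤ ∫ t in Set.Ioc U (U + H), 3 * (gw U H t * ‖F t‖ ^ 2) := by
          refine setIntegral_mono_on ?_ ((hintR.const_mul 3).integrableOn) measurableSet_Ioc fun t ht => ?_
          · exact ((hFc.norm.pow 2).integrableOn_Icc (a := U) (b := U + H)).mono_set Set.Ioc_subset_Icc_self
          · have h11 : 1 / 3 ≤ gw U H t := by
              unfold gw
              have h12 : ((t - U) / H) ^ 2 ≤ 1 := by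
                have h13 : 0 ≤ (t - U) / H := div_nonneg (by linarith [ht.1]) hH.le
                have h14 : (t - U) / H ≤ 1 := by rw [div_le_one hH]; linarith [ht.2]
                nlinarith
              have h15 : Real.exp (-1) ≤ Real.exp (-((t - U) / H) ^ 2) := Real.exp_le_exp.mpr (by linarith)
              have h16 := Real.exp_neg_one_gt_d9
              linarith
            have h17 : 0 ≤ ‖F t‖ ^ 2 := sq_nonneg _
            nlinarith
      _ ≤ ∫ t : ℝ, 3 * (gw U H t * ‖F t‖ ^ 2) := by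
          refine setIntegral_le_integral (hintR.const_mul 3) (Filter.Eventually.of_forall fun t => ?_)
          have := gw_pos U H t
          simp only [Pi.zero_apply]
          positivity
  calc _ ≤ 3 * ∫ t : ℝ, gw U H t * ‖F t‖ ^ 2 := h10
    _ ≤ 3 * (20 * (H + M) * ∑ n ∈ S, ‖c n‖ ^ 2) := by linarith
    _ = _ := by ring

end Pool.Agent.T6.H57.SM
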