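import Pool.Agent.TH806.Tor8
import Pool.Agent.Y755.Nrm
import Pool.Agent.T6.H57.SM.MVG

set_option autoImplicit false

/-! Products of a Dirichlet polynomial with complex coefficients and an element of the algebra. -/

namespace Pool.Agent.T6.H57.SM

open Finset MeasureTheory Complex MonoidAlgebra
open Pool.Agent.W184.NZ
open Pool.Agent.TH806 (Ix TT Pk PP gt ec chi chi_one chi_mul chi_norm chi_cont fw fw_apply PT int_chi)
open Pool.Agent.Y755 (P1 P1_sum es es_single es_apply x1 Qe BS bs sum_pow_prod Bd1)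

noncomputable section

variable {N : ℕ}

/-- evaluation along a multiplicative function -/
def eh (φ : ℕ →* ℂ) : P1 →ₐ[ℝ] ℂ := MonoidAlgebra.lift ℝ ℂ ℕ φ

lemma eh_single (φ : ℕ →* ℂ) (n : ℕ) (c : ℝ) : eh φ (single n c) = c * φ n := by
  unfold eh; rw [MonoidAlgebra.lift_single, Complex.real_smul]

lemma eh_apply (φ : ℕ →* ℂ) (f : P1) : eh φ f = ∑ n ∈ f.coeff.support, (f.coeff n : ℂ) * φ n := by
  conv_lhs => rw [P1_sum f, map_sum]
  exact sum_congr rfl fun n _ => eh_single φ n _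

lemma half_ne : (1 / 2 : ℂ) ≠ 0 := by norm_num

/-- evaluation on the torus -/
def et (θ : Ix N → ℝ) : P1 →ₐ[ℝ] ℂ := eh (fw half_ne θ)

lemma et_x1 (θ : Ix N → ℝ) (I : Finset ℕ) : et θ (x1 I) = PT θ I := by
  unfold x1 PT et
  rw [map_sum]
  refine sum_congr rfl fun p _ => ?_
  rw [eh_single, fw_apply]
  simp

lemma et_Qe_sq (θ : Ix N → ℝ) (I : Finset ℕ) (R : ℕ) : ‖et θ (Qe R I)‖ ^ 2 = (‖PT θ I‖ / R) ^ (2 * R) := by
  unfold Qe
  rw [map_smul, map_pow, et_x1, Complex.real_smul, norm_mul, Complex.norm_real,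
    Real.norm_of_nonneg (by positivity), norm_pow, ← mul_pow, ← pow_mul, mul_comm R 2]
  congr 1
  ring

lemma sum_BSt (J : ℕ) (a : ℝ) (R : ℕ → ℕ) (I : ℕ → Finset ℕ) (θ : Ix N → ℝ) :
    ∑ S ∈ (range J).powerset, ‖et θ (BS J a R I S)‖ ^ 2 = gt J a R I θ := by
  unfold gt
  have e1 : ∀ i, gf (20 * R i) a (R i) (PT θ (I i)) =
      (‖PT θ (I i)‖ / R i) ^ (2 * R i) + ‖NK (20 * R i) a (PT θ (I i))‖ ^ 2 := by
    intro i; unfold gf; ring
  simp_rw [e1]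
  rw [← sum_pow_prod]
  refine sum_congr rfl fun S _ => ?_
  unfold BS
  rw [map_prod, norm_prod, ← prod_pow]
  refine prod_congr rfl fun i _ => ?_
  unfold bs
  split_ifs
  · rw [et_Qe_sq]
  · rw [NK_map, et_x1]

/-- the convolution -/
def cv (M : ℕ) (f : ℕ → ℂ) (B : P1) (n : ℕ) : ℂ :=
  ∑ h ∈ Icc 1 M, ∑ m ∈ B.coeff.support, if h * m = n then f h * (B.coeff m : ℂ) else 0

lemma cv_eval (M : ℕ) (f : ℕ → ℂ) (B : P1) {M2 M3 : ℕ} (hB : ∀ m ∈ B.coeff.support, m ≠ 0 ∧ m ≤ M2)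
    (hM : M * M2 ≤ M3) (φ : ℕ →* ℂ) :
    (∑ h ∈ Icc 1 M, f h * φ h) * eh φ B = ∑ n ∈ Icc 1 M3, cv M f B n * φ n := by
  rw [eh_apply, sum_mul_sum]
  unfold cv
  simp_rw [sum_mul]
  rw [sum_comm (s := Icc 1 M3)]
  refine sum_congr rfl fun h hh => ?_
  rw [sum_comm (s := Icc 1 M3)]
  refine sum_congr rfl fun m hm => ?_
  rw [mem_Icc] at hh
  obtain ⟨h1, h2⟩ := hB m hm
  have hmem : h * m ∈ Icc 1 M3 := by
    rw [mem_Icc]
    refine ⟨Nat.one_le_iff_ne_zero.mpr (Nat.mul_ne_zero (by omega) h1), ?_⟩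
    exact (Nat.mul_le_mul hh.2 h2).trans hM
  rw [sum_eq_single (h * m)]
  · rw [if_pos rfl, map_mul]; ring
  · intro n _ hn
    rw [if_neg hn.symm, zero_mul]
  · intro h0; exact absurd hmem h0

/-- orthogonality on the torus -/
lemma chi_orth {m n : ℕ} (hm : m ≠ 0) (hn : n ≠ 0) (hmN : m < N) (hnN : n < N) :
    ∫ θ, chi θ m * (starRingEnd ℂ) (chi θ n) ∂(TT N) = if m = n then 1 else 0 := by
  have h := int_chi (N := N) (a := fun _ => 0) (by simp) m n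
  have e1 : ∀ θ : Ix N → ℝ, PP (fun _ : Ix N => (0:ℂ)) θ = 1 := by
    intro θ; unfold PP Pk; simp
  simp_rw [e1, mul_one] at h
  rw [h]
  split_ifs with hmn
  · subst hmn
    simp
  · by_contra hcon
    apply hmn
    have h1 : ∀ p : Ix N, ((m.factorization p.1 : ℤ) - n.factorization p.1).natAbs = 0 := by
      intro p
      by_contra hp
      apply hcon
      exact prod_eq_zero (mem_univ p) (zero_pow hp)
    refine Nat.eq_of_factorization_eq hm hn fun p => ?_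
    by_cases hp : p.Prime
    · by_cases hpN : p < N
      · have h2 : ((m.factorization p : ℤ) - n.factorization p).natAbs = 0 :=
          h1 ⟨p, Nat.mem_primesBelow.mpr ⟨hpN, hp⟩⟩
        omega
      · rw [Nat.factorization_eq_zero_of_not_dvd, Nat.factorization_eq_zero_of_not_dvd]
        · intro hd
          have := Nat.le_of_dvd (Nat.pos_of_ne_zero hn) hd
          omega
        · intro hd
          have := Nat.le_of_dvd (Nat.pos_of_ne_zero hm) hd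
          omega
    · rw [Nat.factorization_eq_zero_of_not_prime _ hp, Nat.factorization_eq_zero_of_not_prime _ hp]

lemma chi_l2 {S : Finset ℕ} (hS : ∀ n ∈ S, n ≠ 0 ∧ n < N) (c : ℕ → ℂ) :
    ∫ θ, ‖∑ n ∈ S, c n * chi θ n‖ ^ 2 ∂(TT N) = ∑ n ∈ S, ‖c n‖ ^ 2 := by
  have e1 : ∀ θ : Ix N → ℝ, ((‖∑ n ∈ S, c n * chi θ n‖ ^ 2 : ℝ) : ℂ) = ∑ m ∈ S, ∑ n ∈ S,
      (c m * (starRingEnd ℂ) (c n)) * (chi θ m * (starRingEnd ℂ) (chi θ n)) := by
    intro θ
    rw [Complex.ofReal_pow, ← Complex.mul_conj', map_sum, sum_mul_sum]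
    refine sum_congr rfl fun m _ => sum_congr rfl fun n _ => ?_
    rw [map_mul]; ring
  have hi : ∀ m n : ℕ, Integrable (fun θ : Ix N → ℝ => (c m * (starRingEnd ℂ) (c n)) *
      (chi θ m * (starRingEnd ℂ) (chi θ n))) (TT N) := by
    intro m n
    refine Integrable.of_bound (C := ‖c m * (starRingEnd ℂ) (c n)‖) ?_ (Filter.Eventually.of_forall fun θ => ?_)
    · have h1 := chi_cont (N := N) m
      have h2 : Continuous fun θ : Ix N → ℝ => (starRingEnd ℂ) (chi θ n) :=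
        Complex.continuous_conj.comp (chi_cont (N := N) n)
      exact (continuous_const.mul (h1.mul h2)).aestronglyMeasurable
    · rw [norm_mul _ (chi θ m * (starRingEnd ℂ) (chi θ n)), norm_mul (chi θ m), Complex.norm_conj, chi_norm, chi_norm]
      simp
  have h2 : ((∫ θ, ‖∑ n ∈ S, c n * chi θ n‖ ^ 2 ∂(TT N) : ℝ) : ℂ) = ((∑ n ∈ S, ‖c n‖ ^ 2 : ℝ) : ℂ) := by
    rw [← integral_complex_ofReal]
    simp_rw [e1]
    rw [integral_finsetSum _ fun m _ => integrable_finsetSum _ fun n _ => hi m n, Complex.ofReal_sum]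
    refine sum_congr rfl fun m hm => ?_
    rw [integral_finsetSum _ fun n _ => hi m n]
    rw [sum_eq_single m]
    · rw [integral_const_mul, chi_orth (hS m hm).1 (hS m hm).1 (hS m hm).2 (hS m hm).2, if_pos rfl, mul_one,
        Complex.mul_conj']
      push_cast; rfl
    · intro n hn hne
      rw [integral_const_mul, chi_orth (hS m hm).1 (hS n hn).1 (hS m hm).2 (hS n hn).2, if_neg hne.symm, mul_zero]
    · intro h; exact absurd hm h
  exact_mod_cast h2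

/-- the product of a Dirichlet polynomial and an element of the algebra over a short interval -/
theorem mv_prod {H : ℝ} (hH : 0 < H) (U : ℝ) {M M2 M3 : ℕ} (f : ℕ → ℂ) (B : P1)
    (hB : ∀ m ∈ B.coeff.support, m ≠ 0 ∧ m ≤ M2) (hM : M * M2 ≤ M3) (hN : M3 < N) :
    ∫ t in U..(U + H), ‖∑ h ∈ Icc 1 M, f h * (h : ℂ) ^ (-(1 / 2 + (t:ℂ) * I))‖ ^ 2 * ‖es (1 / 2 + (t:ℂ) * I) B‖ ^ 2 ≤
      60 * (H + M3) * ∫ θ, ‖∑ h ∈ Icc 1 M, f h * ((h : ℂ) ^ (-(1 / 2) : ℂ) * chi θ h)‖ ^ 2 * ‖et θ B‖ ^ 2 ∂(TT N) := by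
  set d : ℕ → ℂ := fun n => cv M f B n * (n : ℂ) ^ (-(1 / 2) : ℂ) with hd
  have e1 : ∀ t : ℝ, ‖∑ h ∈ Icc 1 M, f h * (h : ℂ) ^ (-(1 / 2 + (t:ℂ) * I))‖ ^ 2 * ‖es (1 / 2 + (t:ℂ) * I) B‖ ^ 2 =
      ‖∑ n ∈ Icc 1 M3, d n * cexp (-(I * Real.log n * t))‖ ^ 2 := by
    intro t
    have h1 := cv_eval M f B hB hM (Pool.Agent.Y755.hs (1 / 2 + (t:ℂ) * I))
    have h2 : eh (Pool.Agent.Y755.hs (1 / 2 + (t:ℂ) * I)) B = es (1 / 2 + (t:ℂ) * I) B := rfl
    rw [h2] at h1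
    have h3 : ∑ h ∈ Icc 1 M, f h * Pool.Agent.Y755.hs (1 / 2 + (t:ℂ) * I) h =
      ∑ h ∈ Icc 1 M, f h * (h : ℂ) ^ (-(1 / 2 + (t:ℂ) * I)) := rfl
    rw [h3] at h1
    rw [← mul_pow, ← norm_mul, h1]
    congr 2
    refine sum_congr rfl fun n hn => ?_
    rw [mem_Icc] at hn
    have hn0 : (n:ℂ) ≠ 0 := by exact_mod_cast (by omega : n ≠ 0)
    have h4 : Pool.Agent.Y755.hs (1 / 2 + (t:ℂ) * I) n = (n:ℂ) ^ (-(1 / 2 + (t:ℂ) * I)) := rfl
    rw [h4, hd]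
    simp only
    rw [mul_assoc]
    congr 1
    rw [neg_add, Complex.cpow_add _ _ hn0]
    congr 1
    rw [Complex.cpow_def_of_ne_zero hn0, ← Complex.natCast_log]
    congr 1; ring
  have e2 : ∀ θ : Ix N → ℝ, ‖∑ h ∈ Icc 1 M, f h * ((h : ℂ) ^ (-(1 / 2) : ℂ) * chi θ h)‖ ^ 2 * ‖et θ B‖ ^ 2 =
      ‖∑ n ∈ Icc 1 M3, d n * chi θ n‖ ^ 2 := by
    intro θ
    have h1 := cv_eval M f B hB hM (fw half_ne θ)
    rw [← mul_pow, ← norm_mul]
    have h2 : (∑ h ∈ Icc 1 M, f h * ((h : ℂ) ^ (-(1 / 2) : ℂ) * chi θ h)) * et θ B =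
        (∑ h ∈ Icc 1 M, f h * fw half_ne θ h) * eh (fw half_ne θ) B := rfl
    rw [h2, h1]
    congr 2
    refine sum_congr rfl fun n _ => ?_
    rw [hd, fw_apply]; ring
  simp_rw [e1, e2]
  rw [chi_l2 (fun n hn => by rw [mem_Icc] at hn; exact ⟨by omega, by omega⟩) d]
  exact mvg hH U (subset_refl _) d

end

end Pool.Agent.T6.H57.SM
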