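import Pool.Agent.T6.H57.SM.TorP
import Pool.Agent.T6.H57.SM.TAlg

set_option autoImplicit false

/-! The average over the torus of the squares of the smoothed sums. -/

namespace Pool.Agent.T6.H57.SM

open Finset MeasureTheory Complex
open Pool.Agent.W184.NZ
open Pool.Agent.TH806 (Ix TT ZT wp gt ec xh Par gt_nonneg ZT_cont ZT_bdd SF SF_sq SF_int MS fS fS_mul fub_int chi)
open Pool.Agent.Y755 (IZ IZ_sub mem_IZ)
open Pool.Agent.H448R2.GC (cu ker cs Ps scale_integral scale_integrable cu_nonneg cu_le_one)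

noncomputable section

variable {N : ℕ}

lemma gt_facts {c y : ℝ} {z J Rs : ℕ} (hy : 1 ≤ y) (hrg : Rg c J (IZ z y) (bb y)) (a : ℝ) :
    Continuous (fun θ : Ix N → ℝ => gt J a (RR Rs) (IZ z y) θ) ∧
    ∀ θ : Ix N → ℝ, |gt J a (RR Rs) (IZ z y) θ| ≤ l1 (GP J a (RR Rs) (IZ z y)) := by
  have hpr : ∀ i, ∀ p ∈ IZ z y i, p.Prime := fun i p hp => (hrg.pr i p hp).1
  have hev : ∀ θ : Ix N → ℝ, Pool.Agent.TH806.evt θ (GP J a (RR Rs) (IZ z y)) = ((gt J a (RR Rs) (IZ z y) θ : ℝ) : ℂ) :=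
    fun θ => Pool.Agent.TH806.evt_GP θ J _ _ hpr
  constructor
  · have h1 := Complex.continuous_re.comp (Pool.Agent.TH806.evt_cont (N := N) (GP J a (RR Rs) (IZ z y)))
    refine h1.congr fun θ => ?_
    simp only [Function.comp]
    rw [hev θ, Complex.ofReal_re]
  · intro θ
    have h1 := Pool.Agent.TH806.evt_norm_le (Pool.Agent.Y755.GP_Bdz (Rs := Rs) (a := a) hy hrg) θ
    rw [hev θ, Complex.norm_real, Real.norm_eq_abs] at h1
    exact h1

/-- the bound for the smoothed sums -/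
theorem SF4 (c A η B : ℝ) (z k : ℕ) (hz : 1000 ≤ z) (hη : 0 < η) (hB : 1 ≤ B) (hk : 6 ≤ k) :
    ∃ C : ℝ, 0 < C ∧ ∀ (y L ρ t a D : ℝ) (N J Rs : ℕ),
    (z:ℝ) ≤ y → bb y J < 144 → Rg c J (IZ z y) (bb y) → 1 ≤ Rs → (∀ p : ℕ, p < N → Real.log p ≤ 3 * L) → 1 ≤ L →
    |a| ≤ 1 → Real.log y ≤ L → L ≤ A * Real.log y → y < N → |D| ≤ B * L → 0 ≤ ρ → ρ ≤ 1 / L →
    MS k (η * L / k) D < N →
    ∫ θ, ‖SF k (η * L / k) D (((1 / 2 + ρ : ℝ) : ℂ) + (t : ℂ) * I) θ‖ ^ 2 * gt J a (RR Rs) (IZ z y) θ ∂(TT N) ≤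
      C * Real.exp ((1 + a) ^ 2 * ∑ i ∈ range J, vI (IZ z y i)) * (1 + L * |t|) ^ 4 := by
  obtain ⟨C1, hC10, hC1⟩ := SF_sq η B k hη hB (by omega)
  obtain ⟨C2, hC20, hC2⟩ := tor4 c A z hz
  refine ⟨C1 * (C2 * 2), by positivity, ?_⟩
  intro y L ρ t a D N J Rs hzy hJ hrg hRs hN hL ha hyL hLy hyN hD hρ0 hρ1 hMN'
  set w : ℂ := ((1 / 2 + ρ : ℝ) : ℂ) + (t : ℂ) * I with hw
  have hz1 : (1000:ℝ) ≤ z := by exact_mod_cast hz
  have hwre : w.re = 1 / 2 + ρ := by rw [hw]; simp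
  have hL0 : 0 < L := by linarith
  have hLinv : 0 < 1 / L := by positivity
  have hPar : ∀ τ : ℝ, Par L N 0 (ρ + 1 / L) τ := fun τ =>
    ⟨hL, hN, by rw [norm_zero]; positivity, by positivity, by have : 2 / L = 1 / L + 1 / L := by ring
                                                              linarith⟩
  obtain ⟨hΦc, hΦb⟩ := gt_facts (N := N) (by linarith : (1:ℝ) ≤ y) (Rs := Rs) hrg a
  set Φ : (Ix N → ℝ) → ℝ := fun θ => gt J a (RR Rs) (IZ z y) θ with hΦ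
  have hΦ0 : ∀ θ, 0 ≤ Φ θ := fun θ => gt_nonneg _ _ _ _ _
  have hw1 : 0 < (w + ((1 / L : ℝ) : ℂ)).re := by rw [Complex.add_re, Complex.ofReal_re, hwre]; linarith
  have hfub := fub_int hL (k := k) (by omega) hw1 hΦc hΦb
  have hSF : ∀ θ : Ix N → ℝ, ‖SF k (η * L / k) D w θ‖ ^ 2 ≤ C1 * ∫ v : ℝ, L / (1 + L * |v|) ^ (k + 1) *
      ‖ZT (w + ((1 / L : ℝ) : ℂ) + (v : ℂ) * I) θ‖ ^ 2 := by
    intro θ
    have hkk : (k:ℝ) * (η * L / k) = η * L := by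
      have : (k:ℝ) ≠ 0 := by exact_mod_cast (by omega : k ≠ 0)
      field_simp
    have h1 := hC1 L D w N θ hL hD (by rw [hwre]; linarith) (by unfold MS at hMN'; rwa [hkk] at hMN')
    simp_rw [add_assoc w]
    exact h1
  have step1 : ∫ θ, ‖SF k (η * L / k) D w θ‖ ^ 2 * Φ θ ∂(TT N) ≤
      ∫ θ, (C1 * (∫ v : ℝ, Φ θ * (L / (1 + L * |v|) ^ (k + 1) *
        ‖ZT (w + ((1 / L : ℝ) : ℂ) + (v : ℂ) * I) θ‖ ^ 2))) ∂(TT N) := by
    refine integral_mono_of_nonneg (Filter.Eventually.of_forall fun θ => ?_)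
      (hfub.integral_prod_left.const_mul _) (Filter.Eventually.of_forall fun θ => ?_)
    · exact mul_nonneg (sq_nonneg _) (hΦ0 θ)
    · simp only
      rw [integral_const_mul]
      calc ‖SF k (η * L / k) D w θ‖ ^ 2 * Φ θ = Φ θ * ‖SF k (η * L / k) D w θ‖ ^ 2 := by ring
        _ ≤ Φ θ * (C1 * ∫ v : ℝ, L / (1 + L * |v|) ^ (k + 1) *
            ‖ZT (w + ((1 / L : ℝ) : ℂ) + (v : ℂ) * I) θ‖ ^ 2) := mul_le_mul_of_nonneg_left (hSF θ) (hΦ0 θ)
        _ = _ := by ring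
  refine step1.trans ?_
  rw [integral_const_mul, mul_assoc, mul_assoc]
  refine mul_le_mul_of_nonneg_left ?_ hC10.le
  rw [integral_integral_swap hfub]
  set E := Real.exp ((1 + a) ^ 2 * ∑ i ∈ range J, vI (IZ z y i)) with hE
  have step2 : ∀ v : ℝ, ∫ θ, Φ θ * (L / (1 + L * |v|) ^ (k + 1) *
        ‖ZT (w + ((1 / L : ℝ) : ℂ) + (v : ℂ) * I) θ‖ ^ 2) ∂(TT N) ≤
      (C2 * E * (1 + L * |t|) ^ 4) * (L / (1 + L * |v|) ^ (k - 3)) := by
    intro v
    have h0 : 0 ≤ L * |v| := by positivity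
    have e1 : ∀ θ : Ix N → ℝ, Φ θ * (L / (1 + L * |v|) ^ (k + 1) * ‖ZT (w + ((1 / L : ℝ) : ℂ) + (v : ℂ) * I) θ‖ ^ 2) =
        (L / (1 + L * |v|) ^ (k + 1)) * (‖ZT (wp (ρ + 1 / L) (t + v)) θ‖ ^ 2 *
          gt J a (RR Rs) (IZ z y) θ) := by
      intro θ
      have : w + ((1 / L : ℝ) : ℂ) + (v : ℂ) * I = wp (ρ + 1 / L) (t + v) := by
        rw [hw]; unfold wp; push_cast; ring
      rw [this, hΦ]; ring
    simp_rw [e1]
    rw [integral_const_mul]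
    have h1 := hC2 y L (ρ + 1 / L) (t + v) a N J Rs hzy hJ hrg hRs (hPar _) ha hyL hLy hyN
    have h2 : 1 + L * |t + v| ≤ (1 + L * |t|) * (1 + L * |v|) := by
      have a1 : |t + v| ≤ |t| + |v| := abs_add_le _ _
      have a2 : 0 ≤ L * |t| := by positivity
      nlinarith
    have h2' : (1 + L * |t + v|) ^ 4 ≤ (1 + L * |t|) ^ 4 * (1 + L * |v|) ^ 4 := by
      rw [← mul_pow]
      exact pow_le_pow_left₀ (by positivity) h2 4
    have h3 : 0 ≤ L / (1 + L * |v|) ^ (k + 1) := by positivity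
    have hE0 : 0 < E := Real.exp_pos _
    calc L / (1 + L * |v|) ^ (k + 1) * _ ≤ L / (1 + L * |v|) ^ (k + 1) * (C2 * E * (1 + L * |t + v|) ^ 4) :=
          mul_le_mul_of_nonneg_left h1 h3
      _ ≤ L / (1 + L * |v|) ^ (k + 1) * (C2 * E * ((1 + L * |t|) ^ 4 * (1 + L * |v|) ^ 4)) := by gcongr
      _ = _ := by
          have : (1 + L * |v|) ^ (k + 1) = (1 + L * |v|) ^ (k - 3) * (1 + L * |v|) ^ 4 := by
            rw [← pow_add]; congr 1; omega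
          rw [this]
          field_simp
  have hgk := scale_integrable L (k - 3) hL (by omega)
  have hg2 := scale_integral L (k - 3) hL (by omega)
  calc ∫ v : ℝ, ∫ θ, Φ θ * (L / (1 + L * |v|) ^ (k + 1) *
        ‖ZT (w + ((1 / L : ℝ) : ℂ) + (v : ℂ) * I) θ‖ ^ 2) ∂(TT N) ≤
      ∫ v : ℝ, (C2 * E * (1 + L * |t|) ^ 4) * (L / (1 + L * |v|) ^ (k - 3)) := by
        refine integral_mono_of_nonneg (Filter.Eventually.of_forall fun v => ?_) (hgk.const_mul _)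
          (Filter.Eventually.of_forall step2)
        refine integral_nonneg fun θ => mul_nonneg (hΦ0 θ) (mul_nonneg ?_ (sq_nonneg _))
        have h0 : 0 ≤ L * |v| := by positivity
        positivity
    _ ≤ (C2 * E * (1 + L * |t|) ^ 4) * 2 := by
        rw [integral_const_mul]
        refine mul_le_mul_of_nonneg_left hg2 ?_
        have a2 : 0 ≤ L * |t| := by positivity
        positivity
    _ = _ := by ring

/-- the smoothed sums in terms of the coefficients -/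
lemma cs_fS (k : ℕ) (c D : ℝ) (w : ℂ) (t : ℝ) :
    cs k c D (w + (t:ℂ) * I) = ∑ h ∈ Icc 1 (MS k c D), fS k c D w h * (h : ℂ) ^ (-(1 / 2 + (t:ℂ) * I)) := by
  unfold cs MS
  refine sum_congr rfl fun h hh => ?_
  rw [mem_Icc] at hh
  have hm0 : (h : ℂ) ≠ 0 := by exact_mod_cast (by omega : h ≠ 0)
  unfold fS
  rw [mul_assoc, ← Complex.cpow_add _ _ hm0]
  congr 2; ring

lemma SF_fS (k : ℕ) (c D : ℝ) (w : ℂ) (θ : Ix N → ℝ) :
    SF k c D w θ = ∑ h ∈ Icc 1 (MS k c D), fS k c D w h * ((h : ℂ) ^ (-(1 / 2) : ℂ) * chi θ h) := by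
  unfold SF MS
  refine sum_congr rfl fun h hh => ?_
  rw [mem_Icc] at hh
  rw [← mul_assoc, ← mul_assoc, fS_mul k c D w (by omega : h ≠ 0)]

end

end Pool.Agent.T6.H57.SM
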