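import Pool.Agent.TH806.Tor8
import Pool.Agent.Y755.Nrm

set_option autoImplicit false

/-! Averages over the torus without the Poisson kernels. -/

namespace Pool.Agent.T6.H57.SM

open Finset MeasureTheory Complex
open Pool.Agent.W184.NZ
open Pool.Agent.TH806 (Ix TT Pk PP ap ub ZT wp gt ec uu Af cf xh Hf tor_bound ec_norm ap_norm ub_norm ix_two
  ix_lt Par ub_le ub_lt ub_eq xh_pos xh_le xh_sq xh_cube xh_two half_eq one_prime er er_nonneg Hf_nonneg Hf_bdd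
  cf_norm normW Af_nonneg cos_sum gap_sum err_sum PT gt_nonneg PP_cont PP_bdd ZT_cont ZT_bdd)
open Pool.Agent.Y755 (IZ IZ_sub mem_IZ)

noncomputable section

variable {N : ℕ}

lemma one_sub_ge_exp' {x : ℝ} (h0 : 0 ≤ x) (h1 : x ≤ 1 / 2) : Real.exp (-(2 * x)) ≤ 1 - x := by
  have h2 : 0 < 1 - x := by linarith
  rw [Real.exp_neg, inv_le_comm₀ (Real.exp_pos _) h2]
  have h3 : (1 - x)⁻¹ ≤ 1 + 2 * x := by
    rw [inv_le_iff_one_le_mul₀ h2]; nlinarith
  linarith [Real.add_one_le_exp (2 * x)]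

/-- lower bound for one Poisson kernel -/
lemma Pk_low {a : ℂ} (ha : ‖a‖ ≤ 1 / 2) (x : ℝ) : Real.exp (-(4 * ‖a‖)) ≤ ‖Pk a x‖ := by
  unfold Pk
  have h1 : ‖(1:ℂ) - a ^ 2‖ ≥ 1 - ‖a‖ ^ 2 := by
    have := norm_sub_norm_le (1:ℂ) (a ^ 2)
    rw [norm_one, norm_pow] at this
    exact this
  have h2 : ∀ y : ℝ, ‖1 - a * ec y‖ ≤ 1 + ‖a‖ := by
    intro y
    refine (norm_sub_le _ _).trans ?_
    rw [norm_one, norm_mul, ec_norm, mul_one]
  have h2' : ∀ y : ℝ, 0 < ‖1 - a * ec y‖ := by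
    intro y
    have := norm_sub_norm_le (1:ℂ) (a * ec y)
    rw [norm_one, norm_mul, ec_norm, mul_one] at this
    linarith
  have hn := norm_nonneg a
  rw [norm_div, norm_mul, le_div_iff₀ (mul_pos (h2' _) (h2' _))]
  have h3 : ‖1 - a * ec x‖ * ‖1 - a * ec (-x)‖ ≤ (1 + ‖a‖) * (1 + ‖a‖) :=
    mul_le_mul (h2 _) (h2 _) (norm_nonneg _) (by linarith)
  have h4 : Real.exp (-(2 * ‖a‖)) ≤ 1 - ‖a‖ := one_sub_ge_exp' hn ha
  have h5 : 1 + ‖a‖ ≤ Real.exp ‖a‖ := by linarith [Real.add_one_le_exp ‖a‖]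
  calc Real.exp (-(4 * ‖a‖)) * (‖1 - a * ec x‖ * ‖1 - a * ec (-x)‖) ≤
      Real.exp (-(4 * ‖a‖)) * ((1 + ‖a‖) * (1 + ‖a‖)) := mul_le_mul_of_nonneg_left h3 (Real.exp_pos _).le
    _ ≤ Real.exp (-(4 * ‖a‖)) * (Real.exp ‖a‖ * (1 + ‖a‖)) := by gcongr
    _ = Real.exp (-(3 * ‖a‖)) * (1 + ‖a‖) := by
        rw [← mul_assoc, ← Real.exp_add]; congr 2; ring
    _ ≤ Real.exp (-(2 * ‖a‖)) * (1 + ‖a‖) := by
        refine mul_le_mul_of_nonneg_right (Real.exp_le_exp.mpr (by linarith)) (by linarith)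
    _ ≤ (1 - ‖a‖) * (1 + ‖a‖) := mul_le_mul_of_nonneg_right h4 (by linarith)
    _ = 1 - ‖a‖ ^ 2 := by ring
    _ ≤ _ := h1

lemma ap4_norm (p : Ix N) : ‖ap N 4 p‖ = (p.1 : ℝ) ^ (-(9 / 2 : ℝ)) := by
  rw [ap_norm]
  congr 1
  norm_num

lemma ap4_le (p : Ix N) : ‖ap N 4 p‖ ≤ 1 / 16 := by
  rw [ap4_norm]
  have h2 : (2:ℝ) ≤ p.1 := by exact_mod_cast ix_two p
  calc (p.1 : ℝ) ^ (-(9 / 2 : ℝ)) ≤ (2:ℝ) ^ (-(9 / 2 : ℝ)) :=
        Real.rpow_le_rpow_of_nonpos (by norm_num) h2 (by norm_num)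
    _ ≤ (2:ℝ) ^ (-(4:ℝ)) := Real.rpow_le_rpow_of_exponent_le (by norm_num) (by norm_num)
    _ = 1 / 16 := by
        rw [Real.rpow_neg (by norm_num)]
        norm_num

/-- a constant -/
def U9 : ℝ := ∑' n : ℕ, (n:ℝ) ^ (-(9 / 2 : ℝ))

lemma U9_nonneg : 0 ≤ U9 := tsum_nonneg fun n => by positivity

lemma PP_low (θ : Ix N → ℝ) : Real.exp (-(4 * U9)) ≤ ‖PP (ap N 4) θ‖ := by
  unfold PP
  rw [norm_prod]
  have h1 : ∏ p : Ix N, Real.exp (-(4 * ‖ap N 4 p‖)) ≤ ∏ p : Ix N, ‖Pk (ap N 4 p) (θ p)‖ :=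
    prod_le_prod (fun _ _ => (Real.exp_pos _).le) fun p _ => Pk_low (by have := ap4_le p; linarith) _
  refine le_trans ?_ h1
  rw [← Real.exp_sum]
  refine Real.exp_le_exp.mpr ?_
  rw [sum_neg_distrib, ← mul_sum]
  have hs : Summable (fun n : ℕ => (n:ℝ) ^ (-(9 / 2 : ℝ))) := by
    rw [Real.summable_nat_rpow]; norm_num
  have h2 : ∑ p : Ix N, ‖ap N 4 p‖ ≤ U9 := by
    simp_rw [ap4_norm]
    rw [Finset.sum_coe_sort (Nat.primesBelow N) (fun p : ℕ => (p:ℝ) ^ (-(9 / 2 : ℝ)))]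
    exact hs.sum_le_tsum _ fun i _ => by positivity
  linarith

/-- the exponent at a prime -/
def uP (L τ : ℝ) (c : ℂ) (p : ℕ) : ℝ :=
  1 / (p : ℝ) * ‖Complex.exp (((-(τ * Real.log p) : ℝ) : ℂ) * I) + c / 2‖ ^ 2 + 2 * er L p

variable {L δ τ : ℝ}

lemma small4 (h : Par L N 0 δ τ) (p : Ix N) :
    ∫ x, Hf (ap N 4 p) (ub N (wp δ τ) p) 0 x ∂uu ≤ Real.exp 6 := by
  have ha := ap4_le p
  have hu := ub_lt h p
  have h1 : ∀ x : ℝ, Hf (ap N 4 p) (ub N (wp δ τ) p) 0 x ≤ 200 := by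
    intro x
    refine (Hf_bdd (by linarith) (by linarith) 0 x).trans ?_
    rw [norm_zero, Real.exp_zero, mul_one]
    have a1 : (1 - ‖ap N 4 p‖)⁻¹ ≤ 25 / 4 := by
      rw [inv_le_comm₀ (by linarith) (by norm_num)]; norm_num; linarith
    have a2 : (1 - ‖ub N (wp δ τ) p‖)⁻¹ ≤ 100 / 29 := by
      rw [inv_le_comm₀ (by linarith) (by norm_num)]; norm_num; linarith
    have a3 : 0 < (1 - ‖ap N 4 p‖)⁻¹ := inv_pos.mpr (by linarith)
    have a4 : 0 < (1 - ‖ub N (wp δ τ) p‖)⁻¹ := inv_pos.mpr (by linarith)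
    calc _ ≤ 2 * (25 / 4) * (100 / 29 : ℝ) ^ 2 := by gcongr
      _ ≤ 200 := by norm_num
  have h2 : (200:ℝ) ≤ Real.exp 6 := by
    have e : Real.exp 6 = Real.exp 1 ^ 6 := by rw [← Real.exp_nat_mul]; norm_num
    rw [e]
    have : (2.7:ℝ) ≤ Real.exp 1 := by have := Real.exp_one_gt_d9; linarith
    calc (200:ℝ) ≤ 2.7 ^ 6 := by norm_num
      _ ≤ _ := by gcongr
  calc ∫ x, Hf (ap N 4 p) (ub N (wp δ τ) p) 0 x ∂uu ≤ ∫ x, (200:ℝ) ∂uu :=
        integral_mono_of_nonneg (Filter.Eventually.of_forall fun x => Hf_nonneg _ _ _ _) (integrable_const _)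
          (Filter.Eventually.of_forall h1)
    _ = 200 := by simp
    _ ≤ _ := h2

lemma big4 (h : Par L N 0 δ τ) (p : Ix N) (hp : 144 ≤ p.1) {c : ℂ} (hc : ‖c‖ ≤ 6) :
    ∫ x, Hf (ap N 4 p) (ub N (wp δ τ) p) (c * ((p.1 : ℕ) : ℂ) ^ (-(1 / 2) : ℂ)) x ∂uu ≤
      Real.exp (uP L τ c p.1) := by
  have hp0 : p.1 ≠ 0 := by omega
  have hx := xh_pos p.1
  have hx12 := xh_le hp
  have hlog : 0 ≤ Real.log p.1 := Real.log_nonneg (by exact_mod_cast (by omega : 1 ≤ p.1))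
  rw [half_eq hp0]
  set x := xh p.1 with hxd
  have hx2 : x ^ 2 = 1 / (p.1 : ℝ) := xh_sq hp0
  have hx3 : x ^ 3 = (p.1 : ℝ) ^ (-(3 / 2 : ℝ)) := xh_cube hp0
  have hap : ‖ap N 4 p‖ ≤ x ^ 4 := by
    rw [ap4_norm]
    have e1 : (p.1 : ℝ) ^ (-(9 / 2 : ℝ)) = x ^ 9 := by
      rw [show x ^ 9 = (x ^ 3) ^ 3 by ring, hx3, ← Real.rpow_natCast, ← Real.rpow_mul (by positivity)]
      congr 1; norm_num
    rw [e1]
    exact pow_le_pow_of_le_one hx.le (by linarith) (by norm_num)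
  have hx4 : x ^ 4 ≤ 1 / 12 * x ^ 3 := by
    have : 0 < x ^ 3 := by positivity
    calc x ^ 4 = x * x ^ 3 := by ring
      _ ≤ _ := by gcongr
  have hx31 : x ^ 3 ≤ 1 / 144 * x := by
    have h1 : x ^ 2 ≤ (1 / 12) ^ 2 := pow_le_pow_left₀ hx.le hx12 2
    calc x ^ 3 = x ^ 2 * x := by ring
      _ ≤ (1 / 12) ^ 2 * x := mul_le_mul_of_nonneg_right h1 hx.le
      _ = _ := by norm_num
  have h1 := one_prime hx hx12 (a := ap N 4 p) (u := ub N (wp δ τ) p) (c := c * ((x : ℝ) : ℂ))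
    (hap.trans (by linarith)) (ub_le h p) (by
      rw [norm_mul, Complex.norm_real, Real.norm_eq_abs, abs_of_pos hx]
      exact mul_le_mul_of_nonneg_right hc hx.le)
  refine h1.trans (Real.exp_le_exp.mpr ?_)
  obtain ⟨_, z2, z3⟩ := h.zl (ix_lt p) (by omega)
  set ℓ := Real.log p.1 with hℓ
  set q := ℓ / L with hq
  set D := Real.exp (-(δ * ℓ)) with hD
  set W := Complex.exp (((-(τ * ℓ) : ℝ) : ℂ) * I) with hW
  have hWn : ‖W‖ = 1 := Complex.norm_exp_ofReal_mul_I _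
  have eD : |D - 1| ≤ 2 * q ∧ |D - 1| ≤ 1 := by
    have hδ : 0 ≤ δ * ℓ := mul_nonneg h.d0 hlog
    have hδ2 : δ * ℓ ≤ 2 * q := by
      calc δ * ℓ ≤ 2 / L * ℓ := mul_le_mul_of_nonneg_right h.d1 hlog
        _ = _ := by rw [hq]; ring
    have h5 : D ≤ 1 := Real.exp_le_one_iff.mpr (by linarith)
    have h6 : 0 < D := Real.exp_pos _
    have h7 : 1 - δ * ℓ ≤ D := by have := Real.add_one_le_exp (-(δ * ℓ)); linarith
    rw [abs_of_nonpos (by linarith)]
    exact ⟨by linarith, by linarith⟩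
  have hub : ub N (wp δ τ) p = (x : ℂ) * ((D : ℂ) * W) := ub_eq p
  -- first term
  have t1 : -((ap N 4 p) ^ 2).re ≤ x ^ 3 := by
    have h2 := Complex.abs_re_le_norm ((ap N 4 p) ^ 2)
    rw [norm_pow] at h2
    have h3 : ‖ap N 4 p‖ ^ 2 ≤ (x ^ 4) ^ 2 := pow_le_pow_left₀ (norm_nonneg _) hap 2
    have h4 : (x ^ 4) ^ 2 ≤ x ^ 3 := by
      rw [← pow_mul]; exact pow_le_pow_of_le_one hx.le (by linarith) (by norm_num)
    have := (abs_le.mp (h2.trans (h3.trans h4))).1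
    linarith
  -- second term
  set A := W + c / 2 with hA
  have hAn : ‖A‖ ≤ 4 := by
    calc ‖A‖ ≤ ‖W‖ + ‖c / 2‖ := norm_add_le _ _
      _ ≤ 1 + 3 := by
          rw [hWn, norm_div, Complex.norm_ofNat]; linarith
      _ = 4 := by norm_num
  have e9 : ap N 4 p + (starRingEnd ℂ) (ap N 4 p) + 2 * ub N (wp δ τ) p + c * ((x : ℝ) : ℂ) =
      (ap N 4 p + (starRingEnd ℂ) (ap N 4 p)) + (2 * x : ℂ) * (A + ((D - 1 : ℝ) : ℂ) * W) := by
    rw [hub, hA]
    push_cast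
    ring
  have hF : ‖((D - 1 : ℝ) : ℂ) * W‖ = |D - 1| := by
    rw [norm_mul, hWn, mul_one, Complex.norm_real, Real.norm_eq_abs]
  set B := ‖A + ((D - 1 : ℝ) : ℂ) * W‖ with hB
  have hB0 : 0 ≤ B := norm_nonneg _
  have hB1 : B ≤ ‖A‖ + |D - 1| := by rw [hB, ← hF]; exact norm_add_le _ _
  have hB5 : B ≤ 5 := by linarith [eD.2]
  have hB2 : B ^ 2 ≤ ‖A‖ ^ 2 + 18 * q := by
    have a0 := norm_nonneg A
    have a1 := abs_nonneg (D - 1)
    have a4 : B ^ 2 ≤ (‖A‖ + |D - 1|) ^ 2 := pow_le_pow_left₀ hB0 hB1 2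
    have a5 : ‖A‖ * |D - 1| ≤ 4 * |D - 1| := mul_le_mul_of_nonneg_right hAn a1
    have a6 : |D - 1| * |D - 1| ≤ 1 * |D - 1| := mul_le_mul_of_nonneg_right eD.2 a1
    nlinarith [eD.1]
  have t2 : ‖ap N 4 p + (starRingEnd ℂ) (ap N 4 p) + 2 * ub N (wp δ τ) p + c * ((x : ℝ) : ℂ)‖ ^ 2 / 4 ≤
      x ^ 2 * B ^ 2 + x ^ 3 := by
    rw [e9]
    have b1 : ‖(ap N 4 p + (starRingEnd ℂ) (ap N 4 p)) + (2 * x : ℂ) * (A + ((D - 1 : ℝ) : ℂ) * W)‖ ≤
        2 * x ^ 4 + 2 * x * B := by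
      refine (norm_add_le _ _).trans (add_le_add ?_ ?_)
      · refine (norm_add_le _ _).trans ?_
        rw [Complex.norm_conj]; linarith
      · rw [norm_mul, norm_mul, Complex.norm_ofNat, Complex.norm_real, Real.norm_eq_abs, abs_of_pos hx]
    have b2 := pow_le_pow_left₀ (norm_nonneg _) b1 2
    have b3 : (2 * x ^ 4 + 2 * x * B) ^ 2 / 4 = x ^ 2 * B ^ 2 + 2 * x * B * x ^ 4 + x ^ 4 * x ^ 4 := by ring
    have b4 : 2 * x * B * x ^ 4 ≤ 2 * (1 / 12) * 5 * (1 / 12 * x ^ 3) := by gcongr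
    have b5 : x ^ 4 * x ^ 4 ≤ 1 * (1 / 12 * x ^ 3) := by
      refine mul_le_mul (pow_le_one₀ hx.le (by linarith)) hx4 (by positivity) (by norm_num)
    have b6 : 0 < x ^ 3 := by positivity
    linarith
  have t3 : uP L τ c p.1 = x ^ 2 * ‖A‖ ^ 2 + 50 * (x ^ 2 * q) + 2600 * x ^ 3 := by
    unfold uP er
    rw [← hx2, ← hx3, hq, hA, hW]
    have : 25 / L * (Real.log p.1 / (p.1:ℝ)) = 25 * ((1 / (p.1 : ℝ)) * (ℓ / L)) := by rw [hℓ]; ring
    rw [this, ← hx2]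
    ring
  rw [t3]
  have t4 : 0 ≤ x ^ 2 * q := by positivity
  have t5 : x ^ 2 * B ^ 2 ≤ x ^ 2 * (‖A‖ ^ 2 + 18 * q) := mul_le_mul_of_nonneg_left hB2 (sq_nonneg x)
  have t6 : 0 < x ^ 3 := by positivity
  linarith

lemma uP_zero (p : ℕ) : uP L τ 0 p = 1 * (1 / p) + 2 * er L p := by
  unfold uP
  rw [zero_div, add_zero, Complex.norm_exp_ofReal_mul_I]
  ring

lemma uP_main (a : ℝ) (p : ℕ) :
    uP L τ (cf a 0) p = (a ^ 2 + 2 * a * Real.cos (τ * Real.log p) + 1) * (1 / p) + 2 * er L p := by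
  unfold uP
  have h := normW τ (Real.log p) a
  have e : Complex.exp (((-(τ * Real.log p) : ℝ) : ℂ) * I) + cf a 0 / 2 =
      (a : ℂ) + Complex.exp (((-(τ * Real.log p) : ℝ) : ℂ) * I) := by
    simp only [cf, Matrix.cons_val_zero]; push_cast; ring
  rw [e, h]
  ring

lemma uP_far {a : ℝ} (ha : |a| ≤ 1) (j : Fin 5) (p : ℕ) : uP L τ (cf a j) p ≤ 16 * (1 / p) + 2 * er L p := by
  unfold uP
  have h1 : ‖Complex.exp (((-(τ * Real.log p) : ℝ) : ℂ) * I) + cf a j / 2‖ ≤ 4 := by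
    calc _ ≤ ‖Complex.exp (((-(τ * Real.log p) : ℝ) : ℂ) * I)‖ + ‖cf a j / 2‖ := norm_add_le _ _
      _ ≤ 1 + 3 := by
          rw [Complex.norm_exp_ofReal_mul_I, norm_div, Complex.norm_ofNat]
          linarith [cf_norm (a := a) (by linarith) j]
      _ = 4 := by norm_num
  have h2 : ‖Complex.exp (((-(τ * Real.log p) : ℝ) : ℂ) * I) + cf a j / 2‖ ^ 2 ≤ 16 := by
    nlinarith [norm_nonneg (Complex.exp (((-(τ * Real.log p) : ℝ) : ℂ) * I) + cf a j / 2)]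
  have h3 : (0:ℝ) ≤ 1 / p := by positivity
  have h4 := mul_le_mul_of_nonneg_left h2 h3
  linarith

/-- one block -/
lemma block4 {c a : ℝ} (ha : |a| ≤ 1) {I : Finset ℕ} (hv : vI I ≤ c) (R : ℕ) :
    ∑ j : Fin 5, Af R j * Real.exp (∑ p ∈ I, uP L τ (cf a j) p) ≤
      Real.exp (∑ p ∈ I, uP L τ (cf a 0) p) *
        Real.exp ((3 + 8 * Real.exp (16 * c)) * Real.exp (-(R:ℝ))) := by
  obtain ⟨ha1, ha2⟩ := abs_le.mp ha
  have hv0 := vI_nonneg I
  set S0 := ∑ p ∈ I, uP L τ (cf a 0) p with hS0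
  have h1 : ∀ j : Fin 5, ∑ p ∈ I, uP L τ (cf a j) p ≤ S0 + 16 * c := by
    intro j
    have h2 : ∑ p ∈ I, uP L τ (cf a j) p ≤ ∑ p ∈ I, (uP L τ (cf a 0) p + 16 * (1 / p)) := by
      refine sum_le_sum fun p _ => ?_
      have h3 := uP_far (L := L) (τ := τ) ha j p
      rw [uP_main]
      have h4 : (0:ℝ) ≤ a ^ 2 + 2 * a * Real.cos (τ * Real.log p) + 1 := by
        have c1 := Real.neg_one_le_cos (τ * Real.log p)
        have c2 := Real.cos_le_one (τ * Real.log p)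
        have c3 := Real.sin_sq_add_cos_sq (τ * Real.log p)
        nlinarith [sq_nonneg (a + Real.cos (τ * Real.log p)), sq_nonneg (Real.sin (τ * Real.log p))]
      have h5 : (0:ℝ) ≤ 1 / p := by positivity
      have h6 := mul_nonneg h4 h5
      linarith
    refine h2.trans ?_
    rw [sum_add_distrib, ← mul_sum]
    have : ∑ p ∈ I, 1 / (p:ℝ) = vI I := rfl
    rw [this]
    linarith
  rw [Fin.sum_univ_five]
  have e1 : Af R 0 = (1 + Real.exp (-(R:ℝ))) ^ 2 := rfl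
  have e2 : ∀ j : Fin 5, j ≠ 0 → Af R j = 2 * Real.exp (-(3 / 2 * (R:ℝ))) := by
    intro j hj
    fin_cases j
    · exact absurd rfl hj
    all_goals rfl
  have hR0 : (0:ℝ) ≤ R := Nat.cast_nonneg _
  have hfar : ∀ j : Fin 5, j ≠ 0 → Af R j * Real.exp (∑ p ∈ I, uP L τ (cf a j) p) ≤
      Real.exp S0 * (2 * Real.exp (16 * c) * Real.exp (-(R:ℝ))) := by
    intro j hj
    rw [e2 j hj]
    have h6 : Real.exp (∑ p ∈ I, uP L τ (cf a j) p) ≤ Real.exp (S0 + 16 * c) := Real.exp_le_exp.mpr (h1 j)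
    have h7 : Real.exp (-(3 / 2 * (R:ℝ))) ≤ Real.exp (-(R:ℝ)) := Real.exp_le_exp.mpr (by linarith)
    calc _ ≤ 2 * Real.exp (-(R:ℝ)) * Real.exp (S0 + 16 * c) := by gcongr
      _ = _ := by rw [Real.exp_add]; ring
  have f1 := hfar 1 (by decide)
  have f2 := hfar 2 (by decide)
  have f3 := hfar 3 (by decide)
  have f4 := hfar 4 (by decide)
  rw [e1]
  set X := Real.exp (-(R:ℝ)) with hX
  have hX0 : 0 < X := Real.exp_pos _
  have hX1 : X ≤ 1 := Real.exp_le_one_iff.mpr (by linarith)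
  have h8 : (1 + X) ^ 2 ≤ 1 + 3 * X := by nlinarith
  have h9 : (1 + X) ^ 2 * Real.exp S0 ≤ (1 + 3 * X) * Real.exp S0 := mul_le_mul_of_nonneg_right h8 (Real.exp_pos _).le
  have h10 : 1 + (3 + 8 * Real.exp (16 * c)) * X ≤ Real.exp ((3 + 8 * Real.exp (16 * c)) * X) := by
    linarith [Real.add_one_le_exp ((3 + 8 * Real.exp (16 * c)) * X)]
  have h11 := mul_le_mul_of_nonneg_left h10 (Real.exp_pos S0).le
  nlinarith

/-- the exponent for the primes outside the blocks -/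
def u4 (L τ : ℝ) (p : ℕ) : ℝ := if p < 144 then 6 else uP L τ 0 p

/-- the bound for the average over the torus -/
theorem tor4 (c A : ℝ) (z : ℕ) (hz : 1000 ≤ z) : ∃ C : ℝ, 0 < C ∧ ∀ (y L δ τ a : ℝ) (N J Rs : ℕ),
    (z:ℝ) ≤ y → bb y J < 144 → Rg c J (IZ z y) (bb y) → 1 ≤ Rs → Par L N 0 δ τ → |a| ≤ 1 → Real.log y ≤ L →
    L ≤ A * Real.log y → y < N →
    ∫ θ, ‖ZT (wp δ τ) θ‖ ^ 2 * gt J a (RR Rs) (IZ z y) θ ∂(TT N) ≤
      C * Real.exp ((1 + a) ^ 2 * ∑ i ∈ range J, vI (IZ z y i)) * (1 + L * |τ|) ^ 4 := by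
  obtain ⟨C1, hC10, hC1⟩ := cos_sum
  obtain ⟨C2, hC20, hC2⟩ := gap_sum
  obtain ⟨C3, hC30, hC3⟩ := err_sum
  refine ⟨Real.exp (4 * U9 + (6 * 144 + ((z:ℝ) + (Real.log (3 * A) + C2) + 2 * C3)) + (2 * C3 + 2 * C1) +
    (3 + 8 * Real.exp (16 * c)) * 2), Real.exp_pos _, ?_⟩
  intro y L δ τ a N J Rs hzy hJ hrg hRs hP ha hyL hLy hyN
  obtain ⟨ha1, ha2⟩ := abs_le.mp ha
  have hz1 : (1000:ℝ) ≤ z := by exact_mod_cast hz
  have hy : 1000 ≤ y := hz1.trans hzy
  have hL := hP.L1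
  have hR1 : ∀ i, 1 ≤ RR Rs i := fun i => by unfold RR; omega
  have hIsub : ∀ i < J, IZ z y i ⊆ Nat.primesBelow N := by
    intro i _ p hp
    rw [mem_IZ, mem_II] at hp
    rw [Nat.mem_primesBelow]
    refine ⟨?_, hp.1.1⟩
    have h1 : (p:ℝ) ≤ y := hp.1.2.2.2.trans (bb_le (by linarith) i)
    have h2 : (p:ℝ) < N := lt_of_le_of_lt h1 hyN
    exact_mod_cast h2
  have hmain := tor_bound (N := N) (z := 4) (w := wp δ τ) (fun p => by linarith [ap4_le p])
    (fun p => by linarith [ub_lt hP p]) (J := J) (a := a) (by linarith) hR1 hIsub hrg.dj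
    (u0 := u4 L τ) (u1 := fun p j => uP L τ (cf a j) p)
    (fun p _ => by
      unfold u4
      split_ifs with h144
      · exact small4 hP p
      · have := big4 hP p (by omega) (c := 0) (by simp)
        rwa [zero_mul] at this)
    (fun p i hi hpi j => by
      have h144 : 144 ≤ p.1 := (hrg.pr i p.1 hpi).2.1
      exact big4 hP p h144 (cf_norm (by linarith) j))
  -- removing the Poisson kernels
  have hPP : ∀ θ : Ix N → ℝ, ‖ZT (wp δ τ) θ‖ ^ 2 * gt J a (RR Rs) (IZ z y) θ ≤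
      Real.exp (4 * U9) * (‖PP (ap N 4) θ‖ * ‖ZT (wp δ τ) θ‖ ^ 2 * gt J a (RR Rs) (IZ z y) θ) := by
    intro θ
    have h1 := PP_low θ
    have h2 : 0 ≤ ‖ZT (wp δ τ) θ‖ ^ 2 * gt J a (RR Rs) (IZ z y) θ :=
      mul_nonneg (sq_nonneg _) (gt_nonneg _ _ _ _ _)
    have h3 : 1 ≤ Real.exp (4 * U9) * ‖PP (ap N 4) θ‖ := by
      calc (1:ℝ) = Real.exp (4 * U9) * Real.exp (-(4 * U9)) := by rw [← Real.exp_add]; simp
        _ ≤ _ := mul_le_mul_of_nonneg_left h1 (Real.exp_pos _).le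
    calc _ ≤ (Real.exp (4 * U9) * ‖PP (ap N 4) θ‖) * (‖ZT (wp δ τ) θ‖ ^ 2 * gt J a (RR Rs) (IZ z y) θ) :=
          le_mul_of_one_le_left h2 h3
      _ = _ := by ring
  have hap1 : ∀ p : Ix N, ‖ap N 4 p‖ < 1 := fun p => by linarith [ap4_le p]
  have hub1 : ∀ p : Ix N, ‖ub N (wp δ τ) p‖ < 1 := fun p => by linarith [ub_lt hP p]
  have hwre : (wp δ τ).re = 1 / 2 + δ := by unfold wp; simp
  have hint : Integrable (fun θ : Ix N → ℝ => ‖PP (ap N 4) θ‖ * ‖ZT (wp δ τ) θ‖ ^ 2 *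
      gt J a (RR Rs) (IZ z y) θ) (TT N) := by
    obtain ⟨B1, hB10, hB1⟩ := PP_bdd hap1
    obtain ⟨B2, hB20, hB2⟩ := ZT_bdd (N := N) (σ := 1 / 2 + δ) (by linarith [hP.d0])
    have hpr : ∀ i, ∀ p ∈ IZ z y i, p.Prime := fun i p hp => (hrg.pr i p hp).1
    have hev : ∀ θ : Ix N → ℝ, Pool.Agent.TH806.evt θ (GP J a (RR Rs) (IZ z y)) = ((gt J a (RR Rs) (IZ z y) θ : ℝ) : ℂ) :=
      fun θ => Pool.Agent.TH806.evt_GP θ J _ _ hpr
    have hgtc : Continuous fun θ : Ix N → ℝ => gt J a (RR Rs) (IZ z y) θ := by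
      have h1 := Complex.continuous_re.comp (Pool.Agent.TH806.evt_cont (N := N) (GP J a (RR Rs) (IZ z y)))
      refine h1.congr fun θ => ?_
      simp only [Function.comp]
      rw [hev θ, Complex.ofReal_re]
    have hgtb : ∀ θ : Ix N → ℝ, |gt J a (RR Rs) (IZ z y) θ| ≤ l1 (GP J a (RR Rs) (IZ z y)) := by
      intro θ
      have h1 := Pool.Agent.TH806.evt_norm_le (Pool.Agent.Y755.GP_Bdz (Rs := Rs) (a := a) (by linarith) hrg) θ
      rw [hev θ, Complex.norm_real, Real.norm_eq_abs] at h1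
      exact h1
    have hZc : Continuous fun θ : Ix N → ℝ => ZT (wp δ τ) θ := by
      have h1 := (ZT_cont (N := N) (w := wp δ τ) (by rw [hwre]; linarith [hP.d0])).comp
        (Continuous.prodMk (continuous_const (y := (0:ℝ))) continuous_id)
      refine h1.congr fun θ => ?_
      simp [Function.comp]
    refine Integrable.of_bound (C := B1 * B2 ^ 2 * l1 (GP J a (RR Rs) (IZ z y)))
      (((PP_cont hap1).norm.mul (hZc.norm.pow 2)).mul hgtc).aestronglyMeasurable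
      (Filter.Eventually.of_forall fun θ => ?_)
    rw [norm_mul, norm_mul, norm_pow, norm_norm, norm_norm]
    have a1 := hB1 θ
    have a2 := hB2 (wp δ τ) hwre θ
    have a3 := hgtb θ
    rw [← Real.norm_eq_abs] at a3
    gcongr
  have h0 : ∫ θ, ‖ZT (wp δ τ) θ‖ ^ 2 * gt J a (RR Rs) (IZ z y) θ ∂(TT N) ≤
      Real.exp (4 * U9) * ∫ θ, ‖PP (ap N 4) θ‖ * ‖ZT (wp δ τ) θ‖ ^ 2 * gt J a (RR Rs) (IZ z y) θ ∂(TT N) := by
    rw [← integral_const_mul]
    refine integral_mono_of_nonneg (Filter.Eventually.of_forall fun θ => ?_) (hint.const_mul _)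
      (Filter.Eventually.of_forall hPP)
    exact mul_nonneg (sq_nonneg _) (gt_nonneg _ _ _ _ _)
  refine h0.trans ((mul_le_mul_of_nonneg_left hmain (Real.exp_pos _).le).trans ?_)
  -- first factor
  have F1 : ∑ p ∈ (Nat.primesBelow N).filter (fun p => ∀ i < J, p ∉ IZ z y i), u4 L τ p ≤
      6 * 144 + ((z:ℝ) + (Real.log (3 * A) + C2) + 2 * C3) := by
    rw [← sum_filter_add_sum_filter_not _ (fun p : ℕ => p < 144)]
    refine add_le_add ?_ ?_
    · calc _ ≤ ∑ p ∈ ((Nat.primesBelow N).filter (fun p => ∀ i < J, p ∉ IZ z y i)).filter (fun p => p < 144), (6:ℝ) := by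
            refine sum_le_sum fun p hp => ?_
            rw [mem_filter] at hp
            unfold u4; rw [if_pos hp.2]
        _ ≤ _ := by
            rw [sum_const, nsmul_eq_mul, mul_comm]
            have hcard : (((Nat.primesBelow N).filter (fun p => ∀ i < J, p ∉ IZ z y i)).filter (fun p => p < 144)).card ≤ 144 := by
              calc _ ≤ (range 144).card := card_le_card (fun p hp => by
                    rw [mem_filter] at hp; exact mem_range.mpr hp.2)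
                _ = 144 := card_range _
            have : ((((Nat.primesBelow N).filter (fun p => ∀ i < J, p ∉ IZ z y i)).filter (fun p => p < 144)).card : ℝ) ≤ 144 := by
              exact_mod_cast hcard
            linarith
    · set S := ((Nat.primesBelow N).filter (fun p => ∀ i < J, p ∉ IZ z y i)).filter (fun p : ℕ => ¬ p < 144) with hS
      have hSm : ∀ p ∈ S, p ∈ Nat.primesBelow N ∧ (p < z ∨ y < (p:ℝ)) ∧ 144 ≤ p := by
        intro p hp
        rw [hS, mem_filter, mem_filter] at hp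
        refine ⟨hp.1.1, ?_, by omega⟩
        by_contra hcon
        push Not at hcon
        have h1 := (Pool.Agent.Y755.mem_blocks (z := z) (by omega) (by linarith : (1:ℝ) ≤ y) hJ (p := p)).mpr
          ⟨(Nat.mem_primesBelow.mp hp.1.1).2, hcon.1, hcon.2⟩
        rw [mem_biUnion] at h1
        obtain ⟨i, hi, hpi⟩ := h1
        exact hp.1.2 i (mem_range.mp hi) hpi
      have h1 : ∑ p ∈ S, u4 L τ p ≤ ∑ p ∈ S, (1 * (1 / (p:ℝ)) + 2 * er L p) := by
        refine sum_le_sum fun p hp => ?_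
        unfold u4
        rw [if_neg (by have := (hSm p hp).2.2; omega)]
        exact (uP_zero p).le
      refine h1.trans ?_
      rw [sum_add_distrib, ← mul_sum, ← mul_sum, one_mul]
      have h2 : ∑ p ∈ S, 1 / (p:ℝ) ≤ (z:ℝ) + ∑ p ∈ (Nat.primesBelow N).filter (fun p : ℕ => y < (p:ℝ)), (1:ℝ) / p := by
        have hsub : S ⊆ range z ∪ (Nat.primesBelow N).filter (fun p : ℕ => y < (p:ℝ)) := by
          intro p hp
          rw [mem_union, mem_range, mem_filter]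
          rcases (hSm p hp).2.1 with h | h
          · exact Or.inl h
          · exact Or.inr ⟨(hSm p hp).1, h⟩
        have h3 : ∑ p ∈ range z, (1:ℝ) / p ≤ z := by
          calc _ ≤ ∑ p ∈ range z, (1:ℝ) := by
                refine sum_le_sum fun p _ => ?_
                rcases Nat.eq_zero_or_pos p with h0 | h0
                · rw [h0]; simp
                · rw [div_le_one (by exact_mod_cast h0)]; exact_mod_cast h0
            _ = _ := by simp
        calc _ ≤ ∑ p ∈ range z ∪ (Nat.primesBelow N).filter (fun p : ℕ => y < (p:ℝ)), 1 / (p:ℝ) :=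
              sum_le_sum_of_subset_of_nonneg hsub fun p _ _ => by positivity
          _ ≤ ∑ p ∈ range z, 1 / (p:ℝ) + ∑ p ∈ (Nat.primesBelow N).filter (fun p : ℕ => y < (p:ℝ)), 1 / (p:ℝ) := by
              rw [← sum_union_inter]
              have : 0 ≤ ∑ p ∈ range z ∩ (Nat.primesBelow N).filter (fun p : ℕ => y < (p:ℝ)), 1 / (p:ℝ) :=
                sum_nonneg fun p _ => by positivity
              linarith
          _ ≤ _ := by linarith
      have h3 := hC2 y (by linarith) N L hL hP.hN (by linarith)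
      have hly : 0 < Real.log y := Real.log_pos (by linarith)
      have h4 : Real.log (3 * L) - Real.log (Real.log y) ≤ Real.log (3 * A) := by
        rw [← Real.log_div (by positivity) hly.ne']
        refine Real.log_le_log (by positivity) ?_
        rw [div_le_iff₀ hly]; linarith
      have h5 := hC3 N L hL hP.hN S (fun p hp => (hSm p hp).1)
      have h6 : ∑ p ∈ S, er L p ≤ C3 := h5
      linarith
  -- blocks
  have F2 : ∏ i ∈ range J, ∑ j : Fin 5, Af (RR Rs i) j * Real.exp (∑ p ∈ IZ z y i, uP L τ (cf a j) p) ≤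
      Real.exp (∑ i ∈ range J, ∑ p ∈ IZ z y i, uP L τ (cf a 0) p) *
        Real.exp ((3 + 8 * Real.exp (16 * c)) * 2) := by
    calc _ ≤ ∏ i ∈ range J, (Real.exp (∑ p ∈ IZ z y i, uP L τ (cf a 0) p) *
        Real.exp ((3 + 8 * Real.exp (16 * c)) * Real.exp (-(RR Rs i:ℝ)))) := by
          refine prod_le_prod (fun i _ => sum_nonneg fun j _ => mul_nonneg (Af_nonneg _ _) (Real.exp_pos _).le) ?_
          intro i hi
          exact block4 ha (hrg.v i (mem_range.mp hi)) _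
      _ = Real.exp (∑ i ∈ range J, ∑ p ∈ IZ z y i, uP L τ (cf a 0) p) *
          Real.exp ((3 + 8 * Real.exp (16 * c)) * ∑ i ∈ range J, Real.exp (-(RR Rs i:ℝ))) := by
          rw [prod_mul_distrib, ← Real.exp_sum, ← Real.exp_sum, mul_sum]
      _ ≤ _ := by
          refine mul_le_mul_of_nonneg_left (Real.exp_le_exp.mpr ?_) (Real.exp_pos _).le
          have h1 := sum_exp_le J Rs (RR_ge Rs)
          have h2 : Real.exp (-(Rs:ℝ)) ≤ 1 := Real.exp_le_one_iff.mpr (by simp)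
          refine mul_le_mul_of_nonneg_left (by linarith) (by positivity)
  have F3 : ∑ i ∈ range J, ∑ p ∈ IZ z y i, uP L τ (cf a 0) p ≤
      (1 + a) ^ 2 * (∑ i ∈ range J, vI (IZ z y i)) + (2 * C3 + 2 * C1) + 4 * Real.log (1 + L * |τ|) := by
    have hy1 : 1 ≤ y := by linarith
    have h1 : ∑ i ∈ range J, ∑ p ∈ IZ z y i, uP L τ (cf a 0) p ≤ ∑ i ∈ range J, ∑ p ∈ IZ z y i,
        ((1 + a) ^ 2 * (1 / (p:ℝ)) + 2 * |a| * ((1 - Real.cos (τ * Real.log p)) / p) + 2 * er L p) := by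
      refine sum_le_sum fun i _ => sum_le_sum fun p _ => ?_
      rw [uP_main]
      have h2 : a ^ 2 + 2 * a * Real.cos (τ * Real.log p) + 1 ≤ (1 + a) ^ 2 + 2 * |a| * (1 - Real.cos (τ * Real.log p)) := by
        have c2 := Real.cos_le_one (τ * Real.log p)
        nlinarith [neg_abs_le a]
      have h5 : (0:ℝ) ≤ 1 / p := by positivity
      have h6 := mul_le_mul_of_nonneg_right h2 h5
      have e3 : 2 * |a| * ((1 - Real.cos (τ * Real.log p)) / p) = 2 * |a| * (1 - Real.cos (τ * Real.log p)) * (1 / p) := by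
        ring
      rw [e3]
      linarith
    refine h1.trans ?_
    simp_rw [sum_add_distrib, ← mul_sum]
    have h7 := hC1 y (bb y J) τ L (by linarith) hyL
    have hsub : ∀ (f : ℕ → ℝ), (∀ p, 1 ≤ p → 0 ≤ f p) → ∑ i ∈ range J, ∑ p ∈ IZ z y i, f p ≤ ∑ p ∈ PF y (bb y J), f p := by
      intro f hf
      rw [← sum_II hy1 f J]
      refine sum_le_sum fun i _ => sum_le_sum_of_subset_of_nonneg (IZ_sub z y i) fun p hp _ => ?_
      rw [mem_II] at hp
      exact hf p hp.1.one_le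
    have h8 : ∑ i ∈ range J, ∑ p ∈ IZ z y i, er L p ≤ C3 := by
      refine (hsub (er L) fun p hp => er_nonneg hL hp).trans ?_
      refine hC3 N L hL hP.hN _ fun p hp => ?_
      rw [mem_PF (by linarith)] at hp
      rw [Nat.mem_primesBelow]
      refine ⟨?_, hp.1⟩
      have : (p:ℝ) < N := lt_of_le_of_lt hp.2.2.2 hyN
      exact_mod_cast this
    have hcos : ∀ p : ℕ, 0 ≤ (1 - Real.cos (τ * Real.log p)) / (p:ℝ) := by
      intro p
      have c2 := Real.cos_le_one (τ * Real.log p)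
      have : 0 ≤ 1 - Real.cos (τ * Real.log p) := by linarith
      positivity
    have h9 := hsub (fun p => (1 - Real.cos (τ * Real.log p)) / (p:ℝ)) fun p _ => hcos p
    have h10 : 0 ≤ ∑ i ∈ range J, ∑ p ∈ IZ z y i, (1 - Real.cos (τ * Real.log p)) / (p:ℝ) :=
      sum_nonneg fun i _ => sum_nonneg fun p _ => hcos p
    have h11 : 2 * |a| * ∑ i ∈ range J, ∑ p ∈ IZ z y i, (1 - Real.cos (τ * Real.log p)) / (p:ℝ) ≤
        2 * (2 * Real.log (1 + L * |τ|) + C1) := mul_le_mul (by linarith) (h9.trans h7) h10 (by norm_num)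
    have e5 : ∑ i ∈ range J, vI (IZ z y i) = ∑ i ∈ range J, ∑ p ∈ IZ z y i, 1 / (p:ℝ) := rfl
    rw [e5]
    linarith
  have hLτ : 0 ≤ L * |τ| := mul_nonneg (by linarith) (abs_nonneg _)
  have hlogexp : (1 + L * |τ|) ^ 4 = Real.exp (4 * Real.log (1 + L * |τ|)) := by
    have : Real.exp (4 * Real.log (1 + L * |τ|)) = Real.exp (((4:ℕ):ℝ) * Real.log (1 + L * |τ|)) := by norm_num
    rw [this, Real.exp_nat_mul, Real.exp_log (by linarith)]
  calc _ ≤ Real.exp (4 * U9) * (Real.exp (6 * 144 + ((z:ℝ) + (Real.log (3 * A) + C2) + 2 * C3)) *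
      (Real.exp ((1 + a) ^ 2 * (∑ i ∈ range J, vI (IZ z y i)) + (2 * C3 + 2 * C1) + 4 * Real.log (1 + L * |τ|)) *
        Real.exp ((3 + 8 * Real.exp (16 * c)) * 2))) := by
        refine mul_le_mul_of_nonneg_left ?_ (Real.exp_pos _).le
        refine mul_le_mul (Real.exp_le_exp.mpr F1) (F2.trans ?_) ?_ (Real.exp_pos _).le
        · exact mul_le_mul_of_nonneg_right (Real.exp_le_exp.mpr F3) (Real.exp_pos _).le
        · exact prod_nonneg fun i _ => sum_nonneg fun j _ => mul_nonneg (Af_nonneg _ _) (Real.exp_pos _).le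
    _ = _ := by
        rw [hlogexp, ← Real.exp_add, ← Real.exp_add, ← Real.exp_add, ← Real.exp_add, ← Real.exp_add]
        congr 1
        ring

end

end Pool.Agent.T6.H57.SM
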